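import Pool.Agent.Y789.KM.Gen

set_option autoImplicit false

/-!
# Finite families of assignments: permutations, affine maps
-/

open MeasureTheory Set
open scoped ENNReal

namespace Pool.Agent.Y789.KM

/-- The uniform measure on a finite set. -/
noncomputable def unif (Γ : Type) [Fintype Γ] [MeasurableSpace Γ] : Measure Γ :=
  ((Fintype.card Γ : ℝ≥0∞))⁻¹ • Measure.count

lemma nc {Γ : Type} [Fintype Γ] (p : Γ → Prop) [DecidablePred p] :
    Nat.card {γ // p γ} = (Finset.univ.filter p).card := by
  rw [Nat.card_eq_fintype_card, Fintype.card_subtype]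

lemma unif_apply {Γ : Type} [Fintype Γ] [Nonempty Γ] [MeasurableSpace Γ]
    [MeasurableSingletonClass Γ] (s : Set Γ) :
    unif Γ s = ENNReal.ofReal ((Nat.card {γ // γ ∈ s} : ℝ) / Nat.card Γ) := by
  classical
  have h0 : (0 : ℝ) < Fintype.card Γ := by exact_mod_cast Fintype.card_pos (α := Γ)
  have e : s = ((Finset.univ.filter (· ∈ s) : Finset Γ) : Set Γ) := by
    ext x
    simp
  rw [nc, Nat.card_eq_fintype_card (α := Γ)]
  conv_lhs => rw [e]
  unfold unif
  rw [Measure.smul_apply, Measure.count_apply_finset, smul_eq_mul, ENNReal.ofReal_div_of_pos h0,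
    ENNReal.ofReal_natCast, ENNReal.ofReal_natCast, div_eq_mul_inv, mul_comm]

instance unif_prob {Γ : Type} [Fintype Γ] [Nonempty Γ] [MeasurableSpace Γ]
    [MeasurableSingletonClass Γ] : IsProbabilityMeasure (unif Γ) := by
  constructor
  have h0 : (0 : ℝ) < Nat.card Γ := by exact_mod_cast Nat.card_pos (α := Γ)
  rw [unif_apply]
  have e : Nat.card {γ : Γ // γ ∈ Set.univ} = Nat.card Γ :=
    Nat.card_congr (Equiv.subtypeUnivEquiv fun _ => Set.mem_univ _)
  rw [e, div_self h0.ne', ENNReal.ofReal_one]

lemma Pairwise'.map {Ω X Y ι : Type*} [MeasurableSpace Ω] [MeasurableSpace X] [MeasurableSpace Y]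
    {P : Measure Ω} {ν : Measure X} {A : ℝ≥0∞} {a : Ω → ι → X} (h : Pairwise' P ν A a)
    {b : X → Y} (hb : Measurable b) : Pairwise' P (ν.map b) A (fun x i => b (a x i)) where
  meas i := hb.comp (h.meas i)
  one i U hU := by
    rw [Measure.map_apply hb hU]
    exact h.one i _ (hb hU)
  two i j hij U V hU hV := by
    rw [Measure.map_apply hb hU, Measure.map_apply hb hV]
    exact h.two i j hij _ _ (hb hU) (hb hV)

/-- A finite family `Γ` of assignments `ι → κ` in which single and double values are at most `A`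
times as frequent as for a uniform choice is pairwise nearly independent. -/
lemma pairwise_of_count {Γ ι κ : Type} [Fintype Γ] [Nonempty Γ] [MeasurableSpace Γ]
    [MeasurableSingletonClass Γ] [Fintype κ] [Nonempty κ] [MeasurableSpace κ]
    [MeasurableSingletonClass κ] {A : ℝ} (hA : 0 ≤ A) (π : Γ → ι → κ)
    (h1 : ∀ i k, (Nat.card {γ // π γ i = k} : ℝ) * Nat.card κ ≤ A * Nat.card Γ)
    (h2 : ∀ i j, i ≠ j → ∀ k l, (Nat.card {γ // π γ i = k ∧ π γ j = l} : ℝ) *
      (Nat.card κ) ^ 2 ≤ A * Nat.card Γ) :
    Pairwise' (unif Γ) (unif κ) (ENNReal.ofReal A) π where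
  meas i := measurable_of_finite _
  one i U _ := by
    classical
    have hg : (0 : ℝ) < Nat.card Γ := by exact_mod_cast Nat.card_pos (α := Γ)
    have hm : (0 : ℝ) < Nat.card κ := by exact_mod_cast Nat.card_pos (α := κ)
    rw [unif_apply, unif_apply, ← ENNReal.ofReal_mul hA]
    apply ENNReal.ofReal_le_ofReal
    have e : Nat.card {x // x ∈ {x | π x i ∈ U}} =
        ∑ k ∈ Finset.univ.filter (· ∈ U), Nat.card {γ // π γ i = k} := by
      rw [nc, Finset.card_eq_sum_card_fiberwise (f := fun γ => π γ i)
        (t := Finset.univ.filter (· ∈ U))]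
      · refine Finset.sum_congr rfl fun k hk => ?_
        rw [nc]
        congr 1
        ext γ
        simp only [Finset.mem_filter, Finset.mem_univ, true_and, mem_ofPred_eq] at hk ⊢
        constructor
        · exact fun h => h.2
        · exact fun h => ⟨by rw [h]; exact hk, h⟩
      · intro γ hγ
        simpa using hγ
    rw [div_le_iff₀ hg, e, nc]
    push_cast
    have h3 : (∑ k ∈ Finset.univ.filter (· ∈ U), (Nat.card {γ // π γ i = k} : ℝ)) ≤
        ∑ _k ∈ Finset.univ.filter (fun k : κ => k ∈ U), A * Nat.card Γ / Nat.card κ := by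
      refine Finset.sum_le_sum fun k _ => ?_
      rw [le_div_iff₀ hm]
      exact h1 i k
    refine h3.trans (le_of_eq ?_)
    rw [Finset.sum_const, nsmul_eq_mul]
    ring
  two i j hij U V _ _ := by
    classical
    have hg : (0 : ℝ) < Nat.card Γ := by exact_mod_cast Nat.card_pos (α := Γ)
    have hm : (0 : ℝ) < Nat.card κ := by exact_mod_cast Nat.card_pos (α := κ)
    rw [unif_apply, unif_apply, unif_apply, ← ENNReal.ofReal_mul (by positivity),
      ← ENNReal.ofReal_mul hA]
    apply ENNReal.ofReal_le_ofReal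
    have e : Nat.card {x // x ∈ {x | π x i ∈ U ∧ π x j ∈ V}} =
        ∑ kl ∈ (Finset.univ.filter (· ∈ U)) ×ˢ (Finset.univ.filter (· ∈ V)),
          Nat.card {γ // π γ i = kl.1 ∧ π γ j = kl.2} := by
      rw [nc, Finset.card_eq_sum_card_fiberwise (f := fun γ => (π γ i, π γ j))
        (t := (Finset.univ.filter (· ∈ U)) ×ˢ (Finset.univ.filter (· ∈ V)))]
      · refine Finset.sum_congr rfl fun kl hkl => ?_
        rw [nc]
        congr 1
        ext γ
        simp only [Finset.mem_filter, Finset.mem_univ, true_and, mem_ofPred_eq,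
          Finset.mem_product] at hkl ⊢
        constructor
        · rintro ⟨_, h⟩
          rw [← h]
          exact ⟨rfl, rfl⟩
        · rintro ⟨h, h'⟩
          refine ⟨?_, ?_⟩
          · rw [h, h']
            exact hkl
          · rw [h, h']
      · intro γ hγ
        simpa using hγ
    rw [div_le_iff₀ hg, e, nc, nc]
    push_cast
    have h3 : (∑ kl ∈ (Finset.univ.filter (· ∈ U)) ×ˢ (Finset.univ.filter (· ∈ V)),
        (Nat.card {γ // π γ i = kl.1 ∧ π γ j = kl.2} : ℝ)) ≤
        ∑ _kl ∈ (Finset.univ.filter (fun k : κ => k ∈ U)) ×ˢ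
          (Finset.univ.filter (fun k : κ => k ∈ V)),
          A * Nat.card Γ / (Nat.card κ) ^ 2 := by
      refine Finset.sum_le_sum fun k _ => ?_
      rw [le_div_iff₀ (by positivity)]
      exact h2 i j hij k.1 k.2
    refine h3.trans (le_of_eq ?_)
    rw [Finset.sum_const, nsmul_eq_mul, Finset.card_product]
    push_cast
    ring

lemma perm_one {ι : Type} [Fintype ι] [DecidableEq ι] (i k : ι) :
    Nat.card {τ : Equiv.Perm ι // τ i = k} * Fintype.card ι = Fintype.card (Equiv.Perm ι) := by
  have h1 : ∀ k', (Finset.univ.filter fun τ : Equiv.Perm ι => τ i = k').card =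
      (Finset.univ.filter fun τ : Equiv.Perm ι => τ i = k).card := by
    intro k'
    refine Finset.card_equiv (Equiv.mulLeft (Equiv.swap k' k)) ?_
    intro τ
    simp only [Finset.mem_filter, Finset.mem_univ, true_and, Equiv.coe_mulLeft, Equiv.Perm.mul_apply]
    constructor
    · intro h
      rw [h, Equiv.swap_apply_left]
    · intro h
      have := congrArg (Equiv.swap k' k) h
      rwa [Equiv.swap_apply_self, Equiv.swap_apply_right] at this
  have h2 := Finset.card_eq_sum_card_fiberwise (s := (Finset.univ : Finset (Equiv.Perm ι)))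
    (f := fun τ => τ i) (t := (Finset.univ : Finset ι)) (fun _ _ => by simp)
  rw [Finset.sum_congr rfl (fun k' _ => h1 k'), Finset.sum_const, smul_eq_mul,
    Finset.card_univ, Finset.card_univ] at h2
  rw [h2, nc, mul_comm]

lemma perm_two {ι : Type} [Fintype ι] [DecidableEq ι] {i j : ι} (hij : i ≠ j) {k l : ι}
    (hkl : k ≠ l) :
    Nat.card {τ : Equiv.Perm ι // τ i = k ∧ τ j = l} * (Fintype.card ι - 1) =
      Nat.card {τ : Equiv.Perm ι // τ i = k} := by
  have h1 : ∀ l' ∈ Finset.univ.erase k,
      ((Finset.univ.filter fun τ : Equiv.Perm ι => τ i = k).filter fun τ => τ j = l').card =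
      (Finset.univ.filter fun τ : Equiv.Perm ι => τ i = k ∧ τ j = l).card := by
    intro l' hl'
    have hl'k : k ≠ l' := (Finset.ne_of_mem_erase hl').symm
    refine Finset.card_equiv (Equiv.mulLeft (Equiv.swap l' l)) ?_
    intro τ
    simp only [Finset.mem_filter, Finset.mem_univ, true_and, Equiv.coe_mulLeft, Equiv.Perm.mul_apply]
    constructor
    · rintro ⟨h, h'⟩
      rw [h, h', Equiv.swap_apply_left, Equiv.swap_apply_of_ne_of_ne hl'k hkl]
      exact ⟨rfl, rfl⟩
    · rintro ⟨h, h'⟩
      have e1 := congrArg (Equiv.swap l' l) h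
      have e2 := congrArg (Equiv.swap l' l) h'
      rw [Equiv.swap_apply_self, Equiv.swap_apply_of_ne_of_ne hl'k hkl] at e1
      rw [Equiv.swap_apply_self, Equiv.swap_apply_right] at e2
      exact ⟨e1, e2⟩
  have h2 := Finset.card_eq_sum_card_fiberwise
    (s := (Finset.univ.filter fun τ : Equiv.Perm ι => τ i = k))
    (f := fun τ => τ j) (t := (Finset.univ.erase k : Finset ι)) (by
      intro τ hτ
      simp only [Finset.coe_filter, Finset.mem_univ, true_and, mem_ofPred_eq] at hτ
      simp only [Finset.coe_erase, Finset.coe_univ, Set.mem_sdiff, Set.mem_univ, true_and,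
        mem_singleton_iff]
      rw [← hτ]
      exact fun h => hij (τ.injective h).symm)
  rw [Finset.sum_congr rfl h1, Finset.sum_const, smul_eq_mul,
    Finset.card_erase_of_mem (Finset.mem_univ _), Finset.card_univ] at h2
  rw [nc, nc, h2, mul_comm]

/-- All permutations. -/
lemma perm_pairwise {ι : Type} [Fintype ι] [Nonempty ι] [MeasurableSpace ι]
    [MeasurableSingletonClass ι] [DecidableEq ι] [MeasurableSpace (Equiv.Perm ι)]
    [MeasurableSingletonClass (Equiv.Perm ι)] :
    Pairwise' (unif (Equiv.Perm ι)) (unif ι) (ENNReal.ofReal 2) (fun τ i => τ i) := by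
  have hg : (0 : ℝ) < Nat.card (Equiv.Perm ι) := by exact_mod_cast Nat.card_pos
  have h1 : ∀ i k : ι, (Nat.card {τ : Equiv.Perm ι // τ i = k} : ℝ) *
      Nat.card ι = Nat.card (Equiv.Perm ι) := by
    intro i k
    have h := perm_one i k
    rw [Nat.card_eq_fintype_card (α := ι), Nat.card_eq_fintype_card (α := Equiv.Perm ι)]
    exact_mod_cast h
  refine pairwise_of_count (by norm_num) _ ?_ ?_
  · intro i k
    have h := h1 i k
    linarith
  · intro i j hij k l
    by_cases hkl : k = l
    · have : Nat.card {τ : Equiv.Perm ι // τ i = k ∧ τ j = l} = 0 := by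
        have he : IsEmpty {τ : Equiv.Perm ι // τ i = k ∧ τ j = l} := by
          constructor
          rintro ⟨τ, h, h'⟩
          apply hij
          apply τ.injective
          rw [h, h', hkl]
        exact Nat.card_of_isEmpty
      rw [this]
      push_cast
      linarith
    · have h2 := perm_two hij hkl
      have h3 := h1 i k
      have hc2 : 2 ≤ Fintype.card ι := by
        have : Nontrivial ι := ⟨i, j, hij⟩
        exact Fintype.one_lt_card
      have hc2' : (2 : ℝ) ≤ Fintype.card ι := by exact_mod_cast hc2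
      have h4 : (Nat.card {τ : Equiv.Perm ι // τ i = k ∧ τ j = l} : ℝ) *
          (Fintype.card ι - 1) = (Nat.card {τ : Equiv.Perm ι // τ i = k} : ℝ) := by
        rw [show (Fintype.card ι : ℝ) - 1 = ((Fintype.card ι - 1 : ℕ) : ℝ) by
          rw [Nat.cast_sub (by omega), Nat.cast_one]]
        exact_mod_cast h2
      rw [Nat.card_eq_fintype_card (α := ι)] at h3 ⊢
      have hc : (0 : ℝ) ≤ Nat.card {τ : Equiv.Perm ι // τ i = k ∧ τ j = l} := Nat.cast_nonneg _
      rw [← h3, ← h4]
      have h5 : (Fintype.card ι : ℝ) ^ 2 ≤ 2 * ((Fintype.card ι - 1) * Fintype.card ι) := by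
        nlinarith
      calc (Nat.card {τ : Equiv.Perm ι // τ i = k ∧ τ j = l} : ℝ) * (Fintype.card ι : ℝ) ^ 2 ≤
            (Nat.card {τ : Equiv.Perm ι // τ i = k ∧ τ j = l} : ℝ) *
              (2 * ((Fintype.card ι - 1) * Fintype.card ι)) := mul_le_mul_of_nonneg_left h5 hc
        _ = _ := by ring

/-- The affine maps of a finite field. -/
lemma affine_pairwise {F ι : Type} [Field F] [Fintype F] [MeasurableSpace F]
    [MeasurableSingletonClass F] (e : ι → F) (he : Function.Injective e) :
    Pairwise' (unif (F × F)) (unif F) (ENNReal.ofReal 1) (fun z i => z.1 * e i + z.2) := by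
  classical
  have hm : (0 : ℝ) < Nat.card F := by exact_mod_cast Nat.card_pos (α := F)
  refine pairwise_of_count zero_le_one _ ?_ ?_
  · intro i k
    have h1 : Nat.card {z : F × F // z.1 * e i + z.2 = k} ≤ Nat.card F := by
      refine Nat.card_le_card_of_injective (fun z => z.1.1) ?_
      rintro ⟨⟨u, v⟩, hz⟩ ⟨⟨u', v'⟩, hz'⟩ h
      simp only at hz hz' h
      subst h
      have hv : v = v' := add_left_cancel (hz.trans hz'.symm)
      subst hv
      rfl
    have h2 : (Nat.card {z : F × F // z.1 * e i + z.2 = k} : ℝ) ≤ Nat.card F := by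
      exact_mod_cast h1
    rw [Nat.card_prod, one_mul]
    push_cast
    exact mul_le_mul_of_nonneg_right h2 hm.le
  · intro i j hij k l
    have h1 : Nat.card {z : F × F // z.1 * e i + z.2 = k ∧ z.1 * e j + z.2 = l} ≤ 1 := by
      have hs : Subsingleton {z : F × F // z.1 * e i + z.2 = k ∧ z.1 * e j + z.2 = l} := by
        constructor
        rintro ⟨⟨u, v⟩, hz⟩ ⟨⟨u', v'⟩, hz'⟩
        simp only at hz hz'
        have hne : e i - e j ≠ 0 := sub_ne_zero.2 fun h => hij (he h)
        have hu : u = u' := by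
          apply mul_right_cancel₀ hne
          linear_combination hz.1 - hz.2 - hz'.1 + hz'.2
        subst hu
        have hv : v = v' := by linear_combination hz.1 - hz'.1
        subst hv
        rfl
      exact Finite.card_le_one_iff_subsingleton.2 hs
    have h2 : (Nat.card {z : F × F // z.1 * e i + z.2 = k ∧ z.1 * e j + z.2 = l} : ℝ) ≤ 1 := by
      exact_mod_cast h1
    rw [Nat.card_prod, one_mul]
    push_cast
    nlinarith [sq_nonneg (Nat.card F : ℝ)]

/-- From the measure of a bad set to its cardinality. -/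
lemma card_bad {Γ : Type} [Fintype Γ] [Nonempty Γ] [MeasurableSpace Γ]
    [MeasurableSingletonClass Γ] {p : Γ → Prop} {η : ℝ} (hη : 0 ≤ η)
    (h : unif Γ {γ | p γ} ≤ ENNReal.ofReal η) : (Nat.card {γ // p γ} : ℝ) ≤ η * Nat.card Γ := by
  have h0 : (0 : ℝ) < Nat.card Γ := by exact_mod_cast Nat.card_pos (α := Γ)
  rw [unif_apply, ENNReal.ofReal_le_ofReal_iff hη, div_le_iff₀ h0] at h
  exact h

end Pool.Agent.Y789.KM
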