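import Pool.Agent.H810R3.Tub.Compare
import Pool.Agent.H810R3.Tub.Per2

set_option autoImplicit false

/-!
# The sum of the centred boxes, exponents below `n/(n-1)`
-/

open MeasureTheory Set Metric
open scoped ENNReal

namespace Pool.Agent.Y789.KM

open Pool.Agent.H810R3.Tub

/-- Separated points in a small ball. -/
lemma count_ball {d : ℕ} (hd : 1 ≤ d) {N σ R : ℝ} (hN : 0 < N) (hσ : 0 < σ) (hR : 0 < R)
    (hR1 : σ / (2 * d * N) ≤ R) {ι : Type} (ω : ι → Vec d)
    (hsep : ∀ i j, i ≠ j → σ / N ≤ ‖ω i - ω j‖) (w : Vec d) (J : Finset ι)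
    (hJ : ∀ j ∈ J, ‖ω j - w‖ ≤ R) : (J.card : ℝ) ≤ (10 * d * N * R / σ) ^ d := by
  classical
  have hd0 : (0 : ℝ) < d := by exact_mod_cast hd
  set ρ : ℝ := σ / (2 * d * N * R) with hρ
  have hρ0 : 0 < ρ := by positivity
  have hρ1 : ρ ≤ 1 := by
    rw [hρ, div_le_one (by positivity)]
    rw [div_le_iff₀ (by positivity)] at hR1
    linarith
  have hv : ∀ j : J, ‖(1 / R) • (ω j.1 - w)‖ ≤ 1 := by
    intro j
    rw [norm_smul, Real.norm_eq_abs, abs_of_pos (by positivity), one_div, inv_mul_le_iff₀ hR,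
      mul_one]
    exact hJ j.1 j.2
  have h1 := cell_card hρ0 hρ1 (fun j : J => (1 / R) • (ω j.1 - w)) hv
  have hinj : Function.Injective (fun j : J => cell ρ ((1 / R) • (ω j.1 - w))) := by
    intro i j hij
    by_contra hne
    have h2 := cell_close hρ0 hij
    have h3 : (1 / R) • (ω i.1 - w) - (1 / R) • (ω j.1 - w) = (1 / R) • (ω i.1 - ω j.1) := by
      module
    rw [h3, norm_smul, Real.norm_eq_abs, abs_of_pos (by positivity), one_div,
      inv_mul_le_iff₀ hR] at h2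
    have h4 := hsep i.1 j.1 (fun h => hne (Subtype.ext h))
    have h5 : R * (d * ρ) = σ / N / 2 := by
      rw [hρ]
      field_simp
    have h6 : 0 < σ / N := by positivity
    rw [h5] at h2
    linarith
  rw [Finset.card_image_of_injective _ hinj, Finset.card_univ, Fintype.card_coe] at h1
  refine h1.trans (le_of_eq ?_)
  congr 1
  rw [hρ]
  field_simp
  ring

variable {d : ℕ} {ι : Type} [Fintype ι]

lemma Fb0_le (hd : 1 ≤ d) {N σ : ℝ} (hN : 1 ≤ N) (hσ : 0 < σ) (hσ1 : σ ≤ 1) (ω : ι → Vec d)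
    (f : ι → Fin d → Space d) (hω : ∀ i, ‖ω i‖ ≤ 1)
    (hsep : ∀ i j, i ≠ j → σ / N ≤ ‖ω i - ω j‖)
    (hf : ∀ i, Orthonormal ℝ (Fin.cons (nor (ω i)) (f i) : Fin (d + 1) → Space d))
    (y : Space d) (hy : y.snd ≠ 0) :
    Fb N ω f 0 y ≤ ENNReal.ofReal ((20 * d ^ 2 * N ^ 2 / σ / |y.snd|) ^ d) := by
  classical
  have hd1 : (1 : ℝ) ≤ d := by exact_mod_cast hd
  have hd0 : (0 : ℝ) < d := by linarith
  have hN0 : 0 < N := by linarith
  have hs0 : 0 < |y.snd| := abs_pos.2 hy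
  set J : Finset ι := Finset.univ.filter (fun i => y ∈ box N (nor (ω i)) (f i) 0) with hJ
  have e : Fb N ω f 0 y = (J.card : ℝ≥0∞) := by
    unfold Fb
    simp only [Pi.zero_apply, Set.indicator_apply]
    rw [Finset.sum_boole]
  rw [e]
  rcases J.eq_empty_or_nonempty with h0 | ⟨i, hi⟩
  · rw [h0]
    simp
  have hyi : y ∈ box N (nor (ω i)) (f i) 0 := (Finset.mem_filter.1 hi).2
  have hci := box_coord hN (hω i) (hf i) hyi
  rw [sub_zero] at hci
  have hR : (0 : ℝ) < 2 * d * N / |y.snd| := by positivity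
  have hR1 : σ / (2 * d * N) ≤ 2 * d * N / |y.snd| := by
    rw [div_le_div_iff₀ (by positivity) hs0]
    have h2 := hci.2
    have h3 : (1 + (d : ℝ)) / 2 ≤ 4 * d ^ 2 := by nlinarith
    calc σ * |y.snd| ≤ 1 * ((1 + d) * N ^ 2 / 2) := by gcongr
      _ = (1 + d) / 2 * N ^ 2 := by ring
      _ ≤ 4 * d ^ 2 * N ^ 2 := by gcongr
      _ = 2 * d * N * (2 * d * N) := by ring
  have h1 := count_ball hd hN0 hσ hR hR1 ω hsep (ω i) J (by
    intro j hj
    have hyj : y ∈ box N (nor (ω j)) (f j) 0 := (Finset.mem_filter.1 hj).2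
    have hcj := box_coord hN (hω j) (hf j) hyj
    rw [sub_zero] at hcj
    rw [le_div_iff₀ hs0]
    have h3 : (2 * y.snd) • (ω j - ω i) =
        (y.fst + (2 * y.snd) • ω j) - (y.fst + (2 * y.snd) • ω i) := by module
    have h4 : ‖(2 * y.snd) • (ω j - ω i)‖ ≤ 2 * d * N + 2 * d * N := by
      rw [h3]
      exact (norm_sub_le _ _).trans (add_le_add hcj.1 hci.1)
    rw [norm_smul, Real.norm_eq_abs, abs_mul, abs_of_pos (by norm_num : (0:ℝ) < 2)] at h4
    nlinarith)
  rw [← ENNReal.ofReal_natCast]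
  apply ENNReal.ofReal_le_ofReal
  refine h1.trans (le_of_eq ?_)
  congr 1
  field_simp
  ring

lemma slice (hd : 1 ≤ d) {N : ℝ} (hN : 1 ≤ N) (ω : ι → Vec d)
    (f : ι → Fin d → Space d) (hω : ∀ i, ‖ω i‖ ≤ 1)
    (hf : ∀ i, Orthonormal ℝ (Fin.cons (nor (ω i)) (f i) : Fin (d + 1) → Space d)) (s : ℝ) :
    ∫⁻ x : Vec d, Fb N ω f 0 (WithLp.toLp 2 (x, s)) ≤
      (Icc (-((1 + d) * N ^ 2 / 2)) ((1 + d) * N ^ 2 / 2)).indicator
        (fun _ => ENNReal.ofReal ((Fintype.card ι : ℝ) * ((2 * d * N) ^ d * om d))) s := by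
  have hd0 : (0 : ℝ) < d := by exact_mod_cast hd
  have hN0 : 0 < N := by linarith
  have hR : (0 : ℝ) < 2 * d * N := by positivity
  have hmeas : ∀ i, Measurable (fun x : Vec d =>
      (box N (nor (ω i)) (f i) 0).indicator (fun _ => (1 : ℝ≥0∞)) (WithLp.toLp 2 (x, s))) := by
    intro i
    exact (measurable_const.indicator (box_closed _ _ _ _).measurableSet).comp
      ((WithLp.volume_preserving_toLp (Vec d) ℝ).measurable.comp
        (measurable_id.prodMk measurable_const))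
  have hone : ∀ i, ∫⁻ x : Vec d,
      (box N (nor (ω i)) (f i) 0).indicator (fun _ => (1 : ℝ≥0∞)) (WithLp.toLp 2 (x, s)) ≤
      (Icc (-((1 + d) * N ^ 2 / 2)) ((1 + d) * N ^ 2 / 2)).indicator
        (fun _ => ENNReal.ofReal ((2 * d * N) ^ d * om d)) s := by
    intro i
    by_cases hs : s ∈ Icc (-((1 + d) * N ^ 2 / 2)) ((1 + d) * N ^ 2 / 2)
    · rw [indicator_of_mem hs]
      have h1 : ∀ x : Vec d,
          (box N (nor (ω i)) (f i) 0).indicator (fun _ => (1 : ℝ≥0∞)) (WithLp.toLp 2 (x, s)) ≤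
          (closedBall (-((2 * s) • ω i)) (2 * d * N)).indicator (fun _ => (1 : ℝ≥0∞)) x := by
        intro x
        by_cases hx : (WithLp.toLp 2 (x, s) : Space d) ∈ box N (nor (ω i)) (f i) 0
        · have h2 := box_coord hN (hω i) (hf i) hx
          rw [sub_zero] at h2
          have h3 : x ∈ closedBall (-((2 * s) • ω i)) (2 * d * N) := by
            rw [mem_closedBall, dist_eq_norm, sub_neg_eq_add]
            exact h2.1
          rw [indicator_of_mem hx, indicator_of_mem h3]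
        · rw [indicator_of_notMem hx]
          exact zero_le
      refine (lintegral_mono h1).trans ?_
      rw [lintegral_indicator measurableSet_closedBall, setLIntegral_const, one_mul,
        Measure.addHaar_closedBall_center, vol_closedBall hR]
    · rw [indicator_of_notMem hs]
      have h1 : ∀ x : Vec d,
          (box N (nor (ω i)) (f i) 0).indicator (fun _ => (1 : ℝ≥0∞)) (WithLp.toLp 2 (x, s)) = 0 := by
        intro x
        apply indicator_of_notMem
        intro hx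
        have h2 := box_coord hN (hω i) (hf i) hx
        rw [sub_zero] at h2
        exact hs (abs_le.1 h2.2)
      simp only [h1, lintegral_zero, le_refl]
  unfold Fb
  simp only [Pi.zero_apply]
  rw [lintegral_finsetSum _ (fun i _ => hmeas i)]
  refine (Finset.sum_le_sum fun i _ => hone i).trans (le_of_eq ?_)
  rw [Finset.sum_const, Finset.card_univ, nsmul_eq_mul]
  by_cases hs : s ∈ Icc (-((1 + d) * N ^ 2 / 2)) ((1 + d) * N ^ 2 / 2)
  · rw [indicator_of_mem hs, indicator_of_mem hs, ENNReal.ofReal_mul (Nat.cast_nonneg _),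
      ENNReal.ofReal_natCast]
  · rw [indicator_of_notMem hs, indicator_of_notMem hs, mul_zero]

/-- A one dimensional integral. -/
lemma oneD {α T : ℝ} (hα : α < 1) (hT : 0 < T) :
    ∫⁻ s : ℝ, (Icc (-T) T).indicator (fun s => ENNReal.ofReal (|s| ^ (-α))) s ≤
      ENNReal.ofReal (2 * (T ^ (1 - α) / (1 - α))) := by
  have hm : Measurable (fun s : ℝ => (Ioc 0 T).indicator (fun s => ENNReal.ofReal (s ^ (-α))) s) :=
    Measurable.indicator (by fun_prop) measurableSet_Ioc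
  have h1 : ∀ᵐ s : ℝ, (Icc (-T) T).indicator (fun s => ENNReal.ofReal (|s| ^ (-α))) s ≤
      (Ioc 0 T).indicator (fun s => ENNReal.ofReal (s ^ (-α))) s +
      (Ioc 0 T).indicator (fun s => ENNReal.ofReal (s ^ (-α))) (-s) := by
    have h0 : ∀ᵐ s : ℝ, s ≠ 0 := by
      rw [ae_iff]
      simp
    filter_upwards [h0] with s hs
    by_cases hI : s ∈ Icc (-T) T
    · rw [indicator_of_mem hI]
      rcases lt_or_gt_of_ne hs with h | h
      · have h2 : -s ∈ Ioc 0 T := ⟨by linarith, by linarith [hI.1]⟩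
        rw [indicator_of_mem h2, abs_of_neg h]
        exact le_add_self
      · have h2 : s ∈ Ioc 0 T := ⟨h, hI.2⟩
        rw [indicator_of_mem h2, abs_of_pos h]
        exact le_self_add
    · rw [indicator_of_notMem hI]
      exact zero_le
  have h2 : ∫⁻ s : ℝ, (Ioc 0 T).indicator (fun s => ENNReal.ofReal (s ^ (-α))) s =
      ENNReal.ofReal (T ^ (1 - α) / (1 - α)) := by
    rw [lintegral_indicator measurableSet_Ioc]
    have hi : IntegrableOn (fun s : ℝ => s ^ (-α)) (Ioc 0 T) :=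
      (intervalIntegrable_iff_integrableOn_Ioc_of_le hT.le).1
        (intervalIntegral.intervalIntegrable_rpow' (by linarith))
    have hnn : 0 ≤ᵐ[volume.restrict (Ioc 0 T)] fun s : ℝ => s ^ (-α) := by
      filter_upwards [ae_restrict_mem measurableSet_Ioc] with s hs
      exact Real.rpow_nonneg hs.1.le _
    rw [← ofReal_integral_eq_lintegral_ofReal hi hnn, ← intervalIntegral.integral_of_le hT.le,
      integral_rpow (Or.inl (by linarith))]
    rw [Real.zero_rpow (by linarith), sub_zero]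
    congr 2
    · congr 1
      ring
    · ring
  refine (lintegral_mono_ae h1).trans (le_of_eq ?_)
  rw [lintegral_add_left hm, lintegral_neg_eq_self
    (fun s : ℝ => (Ioc 0 T).indicator (fun s => ENNReal.ofReal (s ^ (-α))) s), h2,
    ← ENNReal.ofReal_add, two_mul]
  · have : 0 < 1 - α := by linarith
    positivity
  · have : 0 < 1 - α := by linarith
    positivity

/-- **The exponents `1 + θ < n/(n-1)`, centred boxes.** -/
theorem low (hd : 1 ≤ d) {θ σ : ℝ} (hθ : 0 ≤ θ) (hθ1 : d * θ < 1) (hσ : 0 < σ) (hσ1 : σ ≤ 1) :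
    ∃ E : ℝ, 1 ≤ E ∧ ∀ N : ℝ, 1 ≤ N → ∀ (ι : Type) [Fintype ι] (ω : ι → Vec d)
      (f : ι → Fin d → Space d), (∀ i, ‖ω i‖ ≤ 1) → (∀ i j, i ≠ j → σ / N ≤ ‖ω i - ω j‖) →
      (∀ i, Orthonormal ℝ (Fin.cons (nor (ω i)) (f i) : Fin (d + 1) → Space d)) →
      ∫⁻ y, Fb N ω f 0 y ^ (1 + θ) ≤ ENNReal.ofReal E * ∫⁻ y, Fb N ω f 0 y := by
  have hd1 : (1 : ℝ) ≤ d := by exact_mod_cast hd
  have hd0 : (0 : ℝ) < d := by linarith
  have hom : 0 < om d := om_pos
  set α : ℝ := d * θ with hα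
  have hα0 : 0 ≤ α := by positivity
  have hα1 : 0 < 1 - α := by linarith
  refine ⟨max 1 ((2 * d) ^ d * om d * (40 * d ^ 2 / (σ * (1 - α)))), le_max_left _ _, ?_⟩
  intro N hN ι _ ω f hω hsep hf
  have hN0 : 0 < N := by linarith
  set K : ℝ := 20 * d ^ 2 * N ^ 2 / σ with hK
  have hK0 : 0 < K := by positivity
  set T : ℝ := (1 + d) * N ^ 2 / 2 with hT
  have hT0 : 0 < T := by positivity
  have hTK : T ≤ K := by
    rw [hT, hK, div_le_div_iff₀ (by norm_num) hσ]
    have h1 : (1 + (d : ℝ)) ≤ 2 * d ^ 2 := by nlinarith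
    calc (1 + (d : ℝ)) * N ^ 2 * σ ≤ 2 * d ^ 2 * N ^ 2 * 1 := by gcongr
      _ ≤ 20 * d ^ 2 * N ^ 2 * 2 := by nlinarith [mul_pos (pow_pos hd0 2) (pow_pos hN0 2)]
  set M : ℝ := (Fintype.card ι : ℝ) * ((2 * d * N) ^ d * om d) with hM
  have hM0 : 0 ≤ M := by positivity
  have hmp := WithLp.volume_preserving_toLp (Vec d) ℝ
  have hg : Measurable (fun y : Space d => Fb N ω f 0 y ^ (1 + θ)) :=
    (Fb_measurable N ω f 0).pow_const _
  have hS : ∫⁻ y : Space d, Fb N ω f 0 y ^ (1 + θ) =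
      ∫⁻ t : ℝ, ∫⁻ x : Vec d, Fb N ω f 0 (WithLp.toLp 2 (x, t)) ^ (1 + θ) := by
    rw [← hmp.lintegral_comp hg]
    have hg2 : Measurable (fun p : Vec d × ℝ => Fb N ω f 0 (WithLp.toLp 2 p) ^ (1 + θ)) :=
      hg.comp hmp.measurable
    rw [Measure.volume_eq_prod, lintegral_prod_symm _ hg2.aemeasurable]
  have hpt : ∀ᵐ t : ℝ, ∫⁻ x : Vec d, Fb N ω f 0 (WithLp.toLp 2 (x, t)) ^ (1 + θ) ≤
      ENNReal.ofReal (K ^ α * M) *
        (Icc (-T) T).indicator (fun s => ENNReal.ofReal (|s| ^ (-α))) t := by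
    have h0 : ∀ᵐ s : ℝ, s ≠ 0 := by
      rw [ae_iff]
      simp
    filter_upwards [h0] with t ht
    have ht0 : 0 < |t| := abs_pos.2 ht
    have h1 : ∀ x : Vec d, Fb N ω f 0 (WithLp.toLp 2 (x, t)) ^ (1 + θ) ≤
        ENNReal.ofReal (K ^ α * |t| ^ (-α)) * Fb N ω f 0 (WithLp.toLp 2 (x, t)) := by
      intro x
      have h2 : Fb N ω f 0 (WithLp.toLp 2 (x, t)) ≤
          ENNReal.ofReal ((20 * d ^ 2 * N ^ 2 / σ / |t|) ^ d) :=
        Fb0_le hd hN hσ hσ1 ω f hω hsep hf (WithLp.toLp 2 (x, t)) ht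
      have h3 : Fb N ω f 0 (WithLp.toLp 2 (x, t)) ^ θ ≤ ENNReal.ofReal (K ^ α * |t| ^ (-α)) := by
        refine (ENNReal.rpow_le_rpow h2 hθ).trans (le_of_eq ?_)
        have h4 : (0 : ℝ) < (20 * d ^ 2 * N ^ 2 / σ / |t|) ^ d := by positivity
        rw [ENNReal.ofReal_rpow_of_pos h4]
        congr 1
        rw [← hK, ← Real.rpow_natCast, ← Real.rpow_mul (by positivity), ← hα,
          Real.div_rpow hK0.le ht0.le, Real.rpow_neg ht0.le, div_eq_mul_inv]
      rw [ENNReal.rpow_add_of_nonneg _ _ zero_le_one hθ, ENNReal.rpow_one, mul_comm]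
      exact mul_le_mul' h3 le_rfl
    refine (lintegral_mono h1).trans ?_
    rw [lintegral_const_mul' _ _ ENNReal.ofReal_ne_top]
    refine (mul_le_mul' le_rfl (slice hd hN ω f hω hf t)).trans (le_of_eq ?_)
    by_cases hs : t ∈ Icc (-T) T
    · rw [indicator_of_mem hs, indicator_of_mem hs, ← ENNReal.ofReal_mul (by positivity),
        ← ENNReal.ofReal_mul (by positivity)]
      congr 1
      ring
    · rw [indicator_of_notMem hs, indicator_of_notMem hs, mul_zero, mul_zero]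
  rw [hS]
  refine (lintegral_mono_ae hpt).trans ?_
  rw [lintegral_const_mul' _ _ ENNReal.ofReal_ne_top]
  refine (mul_le_mul' le_rfl (oneD (by linarith) hT0)).trans ?_
  rw [Fb_int hN hf, ← ENNReal.ofReal_mul (by positivity), ← ENNReal.ofReal_mul (by positivity)]
  apply ENNReal.ofReal_le_ofReal
  have h5 : T ^ (1 - α) ≤ K ^ (1 - α) := Real.rpow_le_rpow hT0.le hTK hα1.le
  have h6 : K ^ α * K ^ (1 - α) = K := by
    rw [← Real.rpow_add hK0]
    norm_num
  calc K ^ α * M * (2 * (T ^ (1 - α) / (1 - α)))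
      ≤ K ^ α * M * (2 * (K ^ (1 - α) / (1 - α))) := by gcongr
    _ = M * 2 * (K ^ α * K ^ (1 - α)) / (1 - α) := by ring
    _ = ((2 * d) ^ d * om d * (40 * d ^ 2 / (σ * (1 - α)))) *
          ((Fintype.card ι : ℝ) * N ^ (d + 2)) := by
        rw [h6, hM, hK, mul_pow (2 * (d : ℝ)) N d, pow_add]
        field_simp
        ring
    _ ≤ _ := by
        gcongr
        exact le_max_right _ _

end Pool.Agent.Y789.KM
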