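import Pool.Agent.Y789.KM.Each
import Pool.Agent.Y789.KM.Low

set_option autoImplicit false

/-!
# All exponents at once
-/

open MeasureTheory Set
open scoped ENNReal

namespace Pool.Agent.Y789.KM

open Pool.Agent.H810R3.Tub

lemma Fb_pow_mono {d : ℕ} {ι : Type} [Fintype ι] (N : ℝ) (ω : ι → Vec d)
    (f : ι → Fin d → Space d) (a : ι → Space d) {r s : ℝ} (hr : 0 < r) (hrs : r ≤ s) :
    ∫⁻ y, Fb N ω f a y ^ r ≤ ∫⁻ y, Fb N ω f a y ^ s := by
  refine lintegral_mono fun y => ?_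
  obtain ⟨k, hk⟩ := T_nat (fun i => box N (nor (ω i)) (f i) 0) a y
  rw [← Fb_eq_T] at hk
  simp only [hk]
  rcases Nat.eq_zero_or_pos k with h0 | h0
  · rw [h0]
    simp only [Nat.cast_zero]
    rw [ENNReal.zero_rpow_of_pos hr, ENNReal.zero_rpow_of_pos (by linarith)]
  · exact ENNReal.rpow_le_rpow_of_exponent_le (by exact_mod_cast h0) hrs

/-- All exponents below `n/(n-1) - ε` at once. -/
theorem low_all {d : ℕ} (hd : 2 ≤ d) {ε σ : ℝ} (hε : 0 < ε) (hσ : 0 < σ) (hσ1 : σ ≤ 1) :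
    ∃ C : ℝ, 1 ≤ C ∧ ∀ (Ω : Type) [MeasurableSpace Ω] (P : Measure Ω)
      [IsProbabilityMeasure P] (ν : Measure (Space d)) [IsProbabilityMeasure ν] (A : ℝ), 1 ≤ A →
      ∀ N : ℝ, 1 ≤ N → ∀ (ι : Type) [Fintype ι] (a : Ω → ι → Space d),
      Pairwise' P ν (ENNReal.ofReal A) a →
      ∀ (ω : ι → Vec d) (f : ι → Fin d → Space d), (∀ i, ‖ω i‖ ≤ 1) →
      (∀ i j, i ≠ j → σ / N ≤ ‖ω i - ω j‖) →
      (∀ i, Orthonormal ℝ (Fin.cons (nor (ω i)) (f i) : Fin (d + 1) → Space d)) →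
      ∀ η : ℝ, 0 < η → η ≤ 1 →
      P {x | ¬ ∀ p : ℝ≥0∞, 1 ≤ p → p ≤ ENNReal.ofReal (1 + 1 / d - ε) →
        eLpNorm (bs N ω f (a x)) p volume ≤
          ENNReal.ofReal (C * A / η) * eLpNorm (bs N ω f 0) p volume} ≤ ENNReal.ofReal η := by
  have hd2 : (2 : ℝ) ≤ d := by exact_mod_cast hd
  have hd0 : (0 : ℝ) < d := by linarith
  have h12 : 1 / (d : ℝ) ≤ 1 / 2 := one_div_le_one_div_of_le (by norm_num) hd2
  set θ : ℝ := max 0 (1 / d - ε) with hθ
  have hθ0 : 0 ≤ θ := le_max_left _ _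
  have hθ1 : θ < 1 / d := by
    rw [hθ, max_lt_iff]
    exact ⟨by positivity, by linarith⟩
  have hθd : d * θ < 1 := by
    rw [lt_div_iff₀ hd0] at hθ1
    linarith
  have hθε : 1 / d - ε ≤ θ := le_max_right _ _
  obtain ⟨E, hE, H⟩ := low (d := d) (by omega) hθ0 hθd hσ hσ1
  refine ⟨6 * E, by linarith, ?_⟩
  intro Ω _ P _ ν _ A hA N hN ι _ a h ω f hω hsep hf η hη hη1
  have hK1 : 1 ≤ 6 * A / η := by
    rw [le_div_iff₀ hη]
    nlinarith
  have hK0 : 0 ≤ 6 * A / η := by linarith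
  refine le_trans (measure_mono ?_)
    (one_exp P ν hA h N ω f (p := 1 + θ) (by linarith) (by linarith) hη)
  intro x hx
  simp only [mem_ofPred_eq] at hx ⊢
  intro hcon
  apply hx
  intro p hp1 hp2
  have hpt : p ≠ ∞ := ne_top_of_le_ne_top ENNReal.ofReal_ne_top hp2
  have hpr : p = ENNReal.ofReal p.toReal := (ENNReal.ofReal_toReal hpt).symm
  have hr1 : 1 ≤ p.toReal := by
    have := ENNReal.toReal_mono hpt hp1
    simpa using this
  have hr2 : p.toReal ≤ 1 + θ := by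
    rw [hpr] at hp2
    have h1 : 0 < 1 + 1 / d - ε := by
      by_contra hneg
      rw [ENNReal.ofReal_of_nonpos (not_lt.1 hneg)] at hp2
      have := le_antisymm hp2 zero_le
      rw [ENNReal.ofReal_eq_zero] at this
      linarith
    rw [ENNReal.ofReal_le_ofReal_iff h1.le] at hp2
    linarith
  have h2 : ∫⁻ y, Fb N ω f (a x) y ^ p.toReal ≤
      ENNReal.ofReal (6 * E * A / η) * ∫⁻ y, Fb N ω f 0 y ^ p.toReal := by
    calc ∫⁻ y, Fb N ω f (a x) y ^ p.toReal ≤ ∫⁻ y, Fb N ω f (a x) y ^ (1 + θ) :=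
          Fb_pow_mono N ω f (a x) (by linarith) hr2
      _ ≤ ENNReal.ofReal (6 * A / η) * ∫⁻ y, Fb N ω f 0 y ^ (1 + θ) := hcon
      _ ≤ ENNReal.ofReal (6 * A / η) * (ENNReal.ofReal E * ∫⁻ y, Fb N ω f 0 y) :=
          mul_le_mul' le_rfl (H N hN ι ω f hω hsep hf)
      _ = ENNReal.ofReal (6 * E * A / η) * ∫⁻ y, Fb N ω f 0 y ^ (1 : ℝ) := by
          rw [← mul_assoc, ← ENNReal.ofReal_mul hK0]
          simp only [ENNReal.rpow_one]
          congr 2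
          ring
      _ ≤ _ := mul_le_mul' le_rfl (Fb_pow_mono N ω f 0 one_pos hr1)
  have h3 := conv_p hr1 (by
    calc (1 : ℝ) ≤ 6 * A / η := hK1
      _ ≤ 6 * A / η * E := le_mul_of_one_le_right hK0 hE
      _ = 6 * E * A / η := by ring) h2
  rw [← hpr] at h3
  exact h3

/-- **All exponents at once, with large probability.** -/
theorem most3 {d : ℕ} (hd : 2 ≤ d) {ε σ κ : ℝ} (hε : 0 < ε) (hσ : 0 < σ) (hσ1 : σ ≤ 1)
    (hκ : 0 < κ) : ∃ C : ℝ, 1 ≤ C ∧ ∀ (Ω : Type) [MeasurableSpace Ω] (P : Measure Ω)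
      [IsProbabilityMeasure P] (ν : Measure (Space d)) [IsProbabilityMeasure ν] (A : ℝ), 1 ≤ A →
      ∀ N : ℝ, 1 ≤ N → ∀ (ι : Type) [Fintype ι] (a : Ω → ι → Space d),
      Pairwise' P ν (ENNReal.ofReal A) a →
      ∀ (ω : ι → Vec d) (f : ι → Fin d → Space d), (∀ i, ‖ω i‖ ≤ 1) →
      (∀ i j, i ≠ j → σ / N ≤ ‖ω i - ω j‖) → κ * N ^ d ≤ (Fintype.card ι : ℝ) →
      (∀ i, Orthonormal ℝ (Fin.cons (nor (ω i)) (f i) : Fin (d + 1) → Space d)) →
      ∀ η : ℝ, 0 < η → η ≤ 1 →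
      P {x | ¬ ∀ p : ℝ≥0∞,
        (1 ≤ p → eLpNorm (bs N ω f (a x)) p volume ≤
          ENNReal.ofReal (C * A / η * (1 + Real.log (Fintype.card ι))) *
            eLpNorm (bs N ω f 0) p volume) ∧
        (1 ≤ p → p ≤ ENNReal.ofReal (1 + 1 / d - ε) → eLpNorm (bs N ω f (a x)) p volume ≤
          ENNReal.ofReal (C * A / η) * eLpNorm (bs N ω f 0) p volume) ∧
        (ENNReal.ofReal (1 + 1 / d + ε) ≤ p → eLpNorm (bs N ω f (a x)) p volume ≤
          ENNReal.ofReal (C * A / η) * eLpNorm (bs N ω f 0) p volume)} ≤ ENNReal.ofReal η := by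
  obtain ⟨C₁, hC₁, H₁⟩ := most (d := d) hd hε hσ hσ1 hκ
  obtain ⟨C₂, hC₂, H₂⟩ := low_all (d := d) hd hε hσ hσ1
  refine ⟨2 * C₁ + 2 * C₂, by linarith, ?_⟩
  intro Ω _ P _ ν _ A hA N hN ι _ a h ω f hω hsep hcard hf η hη hη1
  have hN0 : 0 < N := by linarith
  have hc0 : (0 : ℝ) < (Fintype.card ι : ℝ) := lt_of_lt_of_le (by positivity) hcard
  have hlog : 0 ≤ Real.log (Fintype.card ι : ℝ) :=
    Real.log_nonneg (by exact_mod_cast Nat.succ_le_of_lt (by exact_mod_cast hc0))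
  have h1 := H₁ Ω P ν A hA N hN ι a h ω f hω hsep hcard hf (η / 2) (by linarith) (by linarith)
  have h2 := H₂ Ω P ν A hA N hN ι a h ω f hω hsep hf (η / 2) (by linarith) (by linarith)
  have b1 : C₁ * A / (η / 2) ≤ (2 * C₁ + 2 * C₂) * A / η := by
    have e : C₁ * A / (η / 2) = 2 * C₁ * A / η := by field_simp
    rw [e, div_le_div_iff_of_pos_right hη]
    nlinarith
  have b2 : C₂ * A / (η / 2) ≤ (2 * C₁ + 2 * C₂) * A / η := by
    have e : C₂ * A / (η / 2) = 2 * C₂ * A / η := by field_simp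
    rw [e, div_le_div_iff_of_pos_right hη]
    nlinarith
  have hsub : {x | ¬ ∀ p : ℝ≥0∞,
        (1 ≤ p → eLpNorm (bs N ω f (a x)) p volume ≤
          ENNReal.ofReal ((2 * C₁ + 2 * C₂) * A / η * (1 + Real.log (Fintype.card ι))) *
            eLpNorm (bs N ω f 0) p volume) ∧
        (1 ≤ p → p ≤ ENNReal.ofReal (1 + 1 / d - ε) → eLpNorm (bs N ω f (a x)) p volume ≤
          ENNReal.ofReal ((2 * C₁ + 2 * C₂) * A / η) * eLpNorm (bs N ω f 0) p volume) ∧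
        (ENNReal.ofReal (1 + 1 / d + ε) ≤ p → eLpNorm (bs N ω f (a x)) p volume ≤
          ENNReal.ofReal ((2 * C₁ + 2 * C₂) * A / η) * eLpNorm (bs N ω f 0) p volume)} ⊆
      {x | ¬ ∀ p : ℝ≥0∞,
        (1 ≤ p → eLpNorm (bs N ω f (a x)) p volume ≤
          ENNReal.ofReal (C₁ * A / (η / 2) * (1 + Real.log (Fintype.card ι))) *
            eLpNorm (bs N ω f 0) p volume) ∧
        (ENNReal.ofReal (1 + 1 / d + ε) ≤ p → eLpNorm (bs N ω f (a x)) p volume ≤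
          ENNReal.ofReal (C₁ * A / (η / 2)) * eLpNorm (bs N ω f 0) p volume)} ∪
      {x | ¬ ∀ p : ℝ≥0∞, 1 ≤ p → p ≤ ENNReal.ofReal (1 + 1 / d - ε) →
        eLpNorm (bs N ω f (a x)) p volume ≤
          ENNReal.ofReal (C₂ * A / (η / 2)) * eLpNorm (bs N ω f 0) p volume} := by
    intro x hx
    by_contra hcon
    apply hx
    rw [mem_union, not_or] at hcon
    obtain ⟨g1, g2⟩ := hcon
    simp only [mem_ofPred_eq, not_not] at g1 g2
    intro p
    refine ⟨fun hp => ?_, fun hp hp' => ?_, fun hp => ?_⟩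
    · refine ((g1 p).1 hp).trans (mul_le_mul' (ENNReal.ofReal_le_ofReal ?_) le_rfl)
      exact mul_le_mul_of_nonneg_right b1 (by linarith)
    · exact (g2 p hp hp').trans (mul_le_mul' (ENNReal.ofReal_le_ofReal b2) le_rfl)
    · exact ((g1 p).2 hp).trans (mul_le_mul' (ENNReal.ofReal_le_ofReal b1) le_rfl)
  calc _ ≤ _ := measure_mono hsub
    _ ≤ _ := measure_union_le _ _
    _ ≤ ENNReal.ofReal (η / 2) + ENNReal.ofReal (η / 2) := add_le_add h1 h2
    _ = ENNReal.ofReal η := by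
        rw [← ENNReal.ofReal_add (by linarith) (by linarith)]
        congr 1
        ring

end Pool.Agent.Y789.KM
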