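import Pool.Agent.Y789.KM.Gen
import Pool.Agent.Y789.KM.Large

set_option autoImplicit false

/-!
# Boxes dual to caps of the paraboloid: pairwise nearly independent translates
-/

open MeasureTheory Set
open scoped ENNReal

namespace Pool.Agent.Y789.KM

open Pool.Agent.H810R3.Tub

lemma markov {Ω : Type*} [MeasurableSpace Ω] {P : Measure Ω} {F : Ω → ℝ≥0∞} (hF : Measurable F)
    {K b c : ℝ≥0∞} (hc : c ≠ 0) (hc' : c ≠ ∞) (h : ∫⁻ x, F x ∂P ≤ K * b) :
    P {x | ¬ F x ≤ c * b} ≤ K / c := by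
  rcases eq_or_ne b 0 with hb | hb
  · rw [hb, mul_zero] at h
    have h1 : ∫⁻ x, F x ∂P = 0 := le_antisymm h (zero_le)
    rw [lintegral_eq_zero_iff hF] at h1
    have h2 : P {x | ¬ F x ≤ c * b} = 0 := by
      refine measure_mono_null ?_ (ae_iff.1 h1)
      intro x hx hx0
      apply hx
      rw [hx0]
      exact zero_le
    rw [h2]
    exact zero_le
  · rcases eq_or_ne b ∞ with hb' | hb'
    · have h2 : {x | ¬ F x ≤ c * b} = ∅ := by
        ext x
        simp [hb', ENNReal.mul_top hc]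
      rw [h2, measure_empty]
      exact zero_le
    · calc P {x | ¬ F x ≤ c * b} ≤ P {x | c * b ≤ F x} :=
            measure_mono fun x hx => (not_le.1 hx).le
        _ ≤ (∫⁻ x, F x ∂P) / (c * b) := meas_ge_le_lintegral_div hF.aemeasurable
            (mul_ne_zero hc hb) (ENNReal.mul_ne_top hc' hb')
        _ ≤ (K * b) / (c * b) := ENNReal.div_le_div_right h _
        _ = K / c := ENNReal.mul_div_mul_right _ _ hb hb'

variable {d : ℕ} {ι : Type} [Fintype ι]

lemma Fb_eq_T (N : ℝ) (ω : ι → Vec d) (f : ι → Fin d → Space d) (a : ι → Space d) (y : Space d) :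
    Fb N ω f a y = T (fun i => box N (nor (ω i)) (f i) 0) a y := by
  unfold Fb T
  refine Finset.sum_congr rfl fun i _ => ?_
  have h : y ∈ box N (nor (ω i)) (f i) (a i) ↔ y - a i ∈ box N (nor (ω i)) (f i) 0 := by
    simp only [box, mem_ofPred_eq, sub_zero]
  by_cases hm : y ∈ box N (nor (ω i)) (f i) (a i)
  · rw [indicator_of_mem hm, indicator_of_mem (h.1 hm)]
  · rw [indicator_of_notMem hm, indicator_of_notMem (fun hh => hm (h.2 hh))]

/-- the real sum of the indicators -/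
noncomputable def bs (N : ℝ) (ω : ι → Vec d) (f : ι → Fin d → Space d) (a : ι → Space d)
    (y : Space d) : ℝ :=
  ∑ i, (box N (nor (ω i)) (f i) (a i)).indicator (fun _ => (1 : ℝ)) y

lemma eLp (N : ℝ) (ω : ι → Vec d) (f : ι → Fin d → Space d) (a : ι → Space d) {p : ℝ}
    (hp : 1 ≤ p) :
    eLpNorm (bs N ω f a) (ENNReal.ofReal p) volume ^ p = ∫⁻ y, Fb N ω f a y ^ p := by
  have hp0 : 0 < p := by linarith
  rw [eLpNorm_eq_lintegral_rpow_enorm_toReal (by simpa using hp0) ENNReal.ofReal_ne_top,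
    ENNReal.toReal_ofReal hp0.le, ← ENNReal.rpow_mul, one_div_mul_cancel hp0.ne', ENNReal.rpow_one]
  refine lintegral_congr fun y => ?_
  unfold bs
  rw [enorm_sum_box]

lemma meas_mom {Ω : Type*} [MeasurableSpace Ω] (N : ℝ) (ω : ι → Vec d)
    (f : ι → Fin d → Space d) {a : Ω → ι → Space d} (ha : ∀ i, Measurable (fun x => a x i))
    (p : ℝ) : Measurable (fun x => ∫⁻ y, Fb N ω f (a x) y ^ p) := by
  have h : Measurable (fun z : Ω × Space d =>
      T (fun i => box N (nor (ω i)) (f i) 0) (a z.1) z.2 ^ p) :=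
    (T_meas (fun i => (box_closed _ _ _ _).measurableSet) (a := fun z : Ω × Space d => a z.1)
      (fun i => (ha i).comp measurable_fst) measurable_snd).pow_const p
  have h2 := h.lintegral_prod_right' (ν := volume)
  have e : (fun x => ∫⁻ y, Fb N ω f (a x) y ^ p) =
      fun x => ∫⁻ y, T (fun i => box N (nor (ω i)) (f i) 0) (a x) y ^ p := by
    funext x
    exact lintegral_congr fun y => by rw [Fb_eq_T]
  rw [e]
  exact h2

/-- **the mean, for exponents between one and two** -/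
theorem mean {Ω : Type*} [MeasurableSpace Ω] (P : Measure Ω) [IsProbabilityMeasure P]
    (ν : Measure (Space d)) [IsProbabilityMeasure ν] {A : ℝ} (hA : 1 ≤ A) {a : Ω → ι → Space d}
    (h : Pairwise' P ν (ENNReal.ofReal A) a) (N : ℝ) (ω : ι → Vec d) (f : ι → Fin d → Space d)
    {p : ℝ} (hp1 : 1 ≤ p) (hp2 : p ≤ 2) :
    ∫⁻ x, (∫⁻ y, Fb N ω f (a x) y ^ p) ∂P ≤ ENNReal.ofReal (6 * A) * ∫⁻ y, Fb N ω f 0 y ^ p := by
  have hA' : 1 ≤ ENNReal.ofReal A := by
    rw [← ENNReal.ofReal_one]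
    exact ENNReal.ofReal_le_ofReal hA
  have h1 := gen (volume : Measure (Space d)) P ν hA' h
    (B := fun i => box N (nor (ω i)) (f i) 0) (fun i => (box_closed _ _ _ _).measurableSet) hp1 hp2
  simp only [← Fb_eq_T] at h1
  rw [ENNReal.ofReal_mul (by norm_num)]
  simpa using h1

/-- one exponent, large probability -/
theorem one_exp {Ω : Type*} [MeasurableSpace Ω] (P : Measure Ω) [IsProbabilityMeasure P]
    (ν : Measure (Space d)) [IsProbabilityMeasure ν] {A : ℝ} (hA : 1 ≤ A) {a : Ω → ι → Space d}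
    (h : Pairwise' P ν (ENNReal.ofReal A) a) (N : ℝ) (ω : ι → Vec d) (f : ι → Fin d → Space d)
    {p : ℝ} (hp1 : 1 ≤ p) (hp2 : p ≤ 2) {η : ℝ} (hη : 0 < η) :
    P {x | ¬ ∫⁻ y, Fb N ω f (a x) y ^ p ≤ ENNReal.ofReal (6 * A / η) * ∫⁻ y, Fb N ω f 0 y ^ p} ≤
      ENNReal.ofReal η := by
  have hc : 0 < 6 * A / η := by positivity
  have h1 := markov (meas_mom N ω f h.meas p) (c := ENNReal.ofReal (6 * A / η))
    (by simpa using hc) ENNReal.ofReal_ne_top (mean P ν hA h N ω f hp1 hp2)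
  refine h1.trans (le_of_eq ?_)
  rw [← ENNReal.ofReal_div_of_pos hc]
  congr 1
  field_simp

/-- **all exponents between one and two at once** -/
theorem grid {Ω : Type*} [MeasurableSpace Ω] (P : Measure Ω) [IsProbabilityMeasure P]
    (ν : Measure (Space d)) [IsProbabilityMeasure ν] {A : ℝ} (hA : 1 ≤ A) {a : Ω → ι → Space d}
    (h : Pairwise' P ν (ENNReal.ofReal A) a) (N : ℝ) (ω : ι → Vec d) (f : ι → Fin d → Space d)
    [Nonempty ι] {η : ℝ} (hη : 0 < η) :
    P {x | ¬ ∀ p : ℝ, 1 ≤ p → p ≤ 2 → ∫⁻ y, Fb N ω f (a x) y ^ p ≤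
      ENNReal.ofReal (54 * A * (1 + Real.log (Fintype.card ι)) / η) * ∫⁻ y, Fb N ω f 0 y ^ p} ≤
      ENNReal.ofReal η := by
  set m : ℝ := (Fintype.card ι : ℝ) with hm
  have hm1 : 1 ≤ m := by
    rw [hm]
    exact_mod_cast Nat.succ_le_of_lt (Fintype.card_pos (α := ι))
  have hm0 : 0 < m := by linarith
  have hlog : 0 ≤ Real.log m := Real.log_nonneg hm1
  set L : ℕ := ⌈Real.log m⌉₊ + 1 with hL
  have hL1 : (1 : ℝ) ≤ L := by rw [hL]; push_cast; have := Nat.cast_nonneg (α := ℝ) ⌈Real.log m⌉₊; linarith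
  have hL0 : (0 : ℝ) < L := by linarith
  have hLlog : Real.log m ≤ L := by
    rw [hL]; push_cast
    have := Nat.le_ceil (Real.log m)
    linarith
  have hLle : (L : ℝ) + 1 ≤ 3 * (1 + Real.log m) := by
    rw [hL]; push_cast
    have := Nat.ceil_lt_add_one hlog
    linarith
  have hη' : 0 < η / (L + 1) := by positivity
  set c : ℝ := 6 * A / (η / (L + 1)) with hc
  have hc0 : 0 < c := by positivity
  have hsub : {x | ¬ ∀ p : ℝ, 1 ≤ p → p ≤ 2 → ∫⁻ y, Fb N ω f (a x) y ^ p ≤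
      ENNReal.ofReal (54 * A * (1 + Real.log m) / η) * ∫⁻ y, Fb N ω f 0 y ^ p} ⊆
      ⋃ j ∈ Finset.range (L + 1), {x | ¬ ∫⁻ y, Fb N ω f (a x) y ^ (1 + (j : ℝ) / L) ≤
        ENNReal.ofReal c * ∫⁻ y, Fb N ω f 0 y ^ (1 + (j : ℝ) / L)} := by
    intro x hx
    by_contra hcon
    apply hx
    simp only [mem_iUnion, mem_ofPred_eq, not_exists, not_not, Finset.mem_range] at hcon
    intro p hp1 hp2
    set j : ℕ := ⌊(p - 1) * L⌋₊ with hj
    have hj0 : 0 ≤ (p - 1) * L := mul_nonneg (by linarith) hL0.le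
    have hj1 : (j : ℝ) ≤ (p - 1) * L := Nat.floor_le hj0
    have hj2 : (p - 1) * L < j + 1 := Nat.lt_floor_add_one _
    have hjL : j < L + 1 := by
      have : (j : ℝ) ≤ L := hj1.trans (by nlinarith)
      have := Nat.cast_le.1 this
      omega
    have hpj : 1 + (j : ℝ) / L ≤ p := by
      have : (j : ℝ) / L ≤ p - 1 := by rw [div_le_iff₀ hL0]; exact hj1
      linarith
    have hpj2 : p - (1 + (j : ℝ) / L) ≤ 1 / L := by
      have : p - 1 ≤ ((j : ℝ) + 1) / L := by rw [le_div_iff₀ hL0]; exact hj2.le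
      rw [add_div] at this
      linarith
    have hj00 : 0 ≤ (j : ℝ) / L := by positivity
    have hcj := hcon j hjL
    have hpt : ∀ y, Fb N ω f (a x) y ^ p ≤ 3 * Fb N ω f (a x) y ^ (1 + (j : ℝ) / L) := by
      intro y
      obtain ⟨k, hk⟩ := T_nat (fun i => box N (nor (ω i)) (f i) 0) (a x) y
      rw [← Fb_eq_T] at hk
      have hle : Fb N ω f (a x) y ≤ ENNReal.ofReal m := by
        refine (Fb_le N ω f (a x) y).trans (le_of_eq ?_)
        rw [hm, ENNReal.ofReal_natCast]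
      have hmL : ENNReal.ofReal m ^ (p - (1 + (j : ℝ) / L)) ≤ 3 := by
        rw [ENNReal.ofReal_rpow_of_pos hm0]
        have h3 : m ^ (p - (1 + (j : ℝ) / L)) ≤ 3 := by
          calc m ^ (p - (1 + (j : ℝ) / L)) ≤ m ^ (1 / (L : ℝ)) :=
                Real.rpow_le_rpow_of_exponent_le hm1 hpj2
            _ = Real.exp (Real.log m * (1 / L)) := Real.rpow_def_of_pos hm0 _
            _ ≤ Real.exp 1 := by
                apply Real.exp_le_exp.2
                rw [mul_one_div, div_le_one hL0]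
                exact hLlog
            _ ≤ 3 := by
                have := Real.exp_one_lt_d9
                linarith
        calc ENNReal.ofReal (m ^ (p - (1 + (j : ℝ) / L))) ≤ ENNReal.ofReal 3 :=
              ENNReal.ofReal_le_ofReal h3
          _ = 3 := by norm_num
      have e : Fb N ω f (a x) y ^ p =
          Fb N ω f (a x) y ^ (p - (1 + (j : ℝ) / L)) * Fb N ω f (a x) y ^ (1 + (j : ℝ) / L) := by
        rw [← ENNReal.rpow_add_of_nonneg _ _ (by linarith) (by linarith), sub_add_cancel]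
      rw [e]
      exact mul_le_mul' ((ENNReal.rpow_le_rpow hle (by linarith)).trans hmL) le_rfl
    have hG : ∫⁻ y, Fb N ω f 0 y ^ (1 + (j : ℝ) / L) ≤ ∫⁻ y, Fb N ω f 0 y ^ p := by
      refine lintegral_mono fun y => ?_
      obtain ⟨k, hk⟩ := T_nat (fun i => box N (nor (ω i)) (f i) 0) (0 : ι → Space d) y
      rw [← Fb_eq_T] at hk
      simp only [hk]
      rcases Nat.eq_zero_or_pos k with h0 | h0
      · rw [h0]
        simp only [Nat.cast_zero]
        rw [ENNReal.zero_rpow_of_pos (by linarith), ENNReal.zero_rpow_of_pos (by linarith)]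
      · exact ENNReal.rpow_le_rpow_of_exponent_le (by exact_mod_cast h0) hpj
    calc ∫⁻ y, Fb N ω f (a x) y ^ p ≤ ∫⁻ y, 3 * Fb N ω f (a x) y ^ (1 + (j : ℝ) / L) :=
          lintegral_mono hpt
      _ = 3 * ∫⁻ y, Fb N ω f (a x) y ^ (1 + (j : ℝ) / L) :=
          lintegral_const_mul' _ _ (by norm_num)
      _ ≤ 3 * (ENNReal.ofReal c * ∫⁻ y, Fb N ω f 0 y ^ p) := by
          gcongr
          exact hcj.trans (mul_le_mul' le_rfl hG)
      _ = ENNReal.ofReal (3 * c) * ∫⁻ y, Fb N ω f 0 y ^ p := by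
          rw [← mul_assoc, ENNReal.ofReal_mul (by norm_num)]
          norm_num
      _ ≤ _ := by
          gcongr
          rw [hc]
          have e : 3 * (6 * A / (η / (↑L + 1))) = 18 * A * (L + 1) / η := by field_simp; ring
          rw [e]
          rw [div_le_div_iff_of_pos_right hη]
          nlinarith
  refine (measure_mono hsub).trans ((measure_biUnion_finset_le _ _).trans ?_)
  calc ∑ j ∈ Finset.range (L + 1), P {x | ¬ ∫⁻ y, Fb N ω f (a x) y ^ (1 + (j : ℝ) / L) ≤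
        ENNReal.ofReal c * ∫⁻ y, Fb N ω f 0 y ^ (1 + (j : ℝ) / L)}
      ≤ ∑ _j ∈ Finset.range (L + 1), ENNReal.ofReal (η / (L + 1)) := by
        refine Finset.sum_le_sum fun j hj => ?_
        have hjL : (j : ℝ) / L ≤ 1 := by
          rw [div_le_one hL0]
          have := Finset.mem_range.1 hj
          exact_mod_cast Nat.lt_succ_iff.1 this
        have hj0 : 0 ≤ (j : ℝ) / L := by positivity
        exact one_exp P ν hA h N ω f (by linarith) (by linarith) hη'
    _ = ENNReal.ofReal η := by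
        rw [Finset.sum_const, Finset.card_range, nsmul_eq_mul, ← ENNReal.ofReal_natCast,
          ← ENNReal.ofReal_mul (by positivity)]
        congr 1
        push_cast
        field_simp

/-- large exponents, deterministic -/
theorem big {d : ℕ} (hd : 1 ≤ d) {q σ κ : ℝ} (hq : ((d : ℝ) + 1) / d < q) (hσ : 0 < σ)
    (hσ1 : σ ≤ 1) (hκ : 0 < κ) : ∃ C : ℝ, 1 ≤ C ∧ ∀ N : ℝ, 1 ≤ N → ∀ (ι : Type) [Fintype ι]
      (ω : ι → Vec d) (f : ι → Fin d → Space d), (∀ i, ‖ω i‖ ≤ 1) →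
      (∀ i j, i ≠ j → σ / N ≤ ‖ω i - ω j‖) → κ * N ^ d ≤ (Fintype.card ι : ℝ) →
      (∀ i, Orthonormal ℝ (Fin.cons (nor (ω i)) (f i) : Fin (d + 1) → Space d)) →
      ∀ K : ℝ, 1 ≤ K → ∀ a : ι → Space d,
      ∫⁻ y, Fb N ω f a y ^ q ≤ ENNReal.ofReal K * ∫⁻ y, Fb N ω f 0 y ^ q →
      ∀ p : ℝ≥0∞, ENNReal.ofReal q ≤ p → eLpNorm (bs N ω f a) p volume ≤
        ENNReal.ofReal (C * K) * eLpNorm (bs N ω f 0) p volume := by
  have hd0 : (0 : ℝ) < d := by exact_mod_cast hd
  have hq1 : 1 < q := by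
    refine lt_trans ?_ hq
    rw [lt_div_iff₀ hd0]
    linarith
  have hq0 : 0 < q := by linarith
  obtain ⟨E, hE0, hE⟩ := bush d hd q hq σ hσ hσ1
  have hw0 : 0 < wv d := wv_pos d
  set C : ℝ := max 1 (E * κ ^ (-(1 / (d : ℝ))) * 2 ^ (d + 1) / wv d) with hC
  have hC1 : 1 ≤ C := le_max_left _ _
  refine ⟨C, hC1, ?_⟩
  intro N hN ι _ ω f hω hsep hcard hf K hK a ha p hp
  have hN0 : 0 < N := by linarith
  have hc0 : (0 : ℝ) < (Fintype.card ι : ℝ) := lt_of_lt_of_le (by positivity) hcard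
  have hne : Nonempty ι := by
    rw [← Fintype.card_pos_iff]
    exact_mod_cast hc0
  have hK0 : 0 < K := by linarith
  have hCK : 1 ≤ C * K := by nlinarith
  have hCK0 : 0 < C * K := by linarith
  set Q : ℝ := E * K * N ^ (d + 2) * (Fintype.card ι : ℝ) ^ (q - 1 / d) with hQ
  have hQ0 : 0 < Q := by positivity
  have hQi : ∫⁻ y, Fb N ω f a y ^ q ≤ ENNReal.ofReal Q := by
    refine ha.trans ((mul_le_mul' le_rfl (hE N hN ι ω f hω hsep hf)).trans (le_of_eq ?_))
    rw [← ENNReal.ofReal_mul hK0.le, hQ]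
    congr 1
    ring
  have hD1 : 1 ≤ (C * K) ^ (1 / q) := Real.one_le_rpow hCK (by positivity)
  have hDq : ((C * K) ^ (1 / q)) ^ q = C * K := by
    rw [← Real.rpow_mul hCK0.le, one_div_mul_cancel hq0.ne', Real.rpow_one]
  have h1 := large d hN hq1 hQ0 hD1 ω f hf a hQi (by
    rw [hDq]
    exact arith3 hd0 hE0 hK0 hN hκ hcard hw0 (le_max_right _ _)) p hp
  refine h1.trans (mul_le_mul' (ENNReal.ofReal_le_ofReal ?_) le_rfl)
  calc (C * K) ^ (1 / q) ≤ (C * K) ^ (1 : ℝ) := by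
        apply Real.rpow_le_rpow_of_exponent_le hCK
        rw [div_le_one hq0]
        exact hq1.le
    _ = _ := Real.rpow_one _

/-- **Both statements with large probability.** -/
theorem most {d : ℕ} (hd : 2 ≤ d) {ε σ κ : ℝ} (hε : 0 < ε) (hσ : 0 < σ) (hσ1 : σ ≤ 1)
    (hκ : 0 < κ) : ∃ C : ℝ, 1 ≤ C ∧ ∀ (Ω : Type) [MeasurableSpace Ω] (P : Measure Ω)
      [IsProbabilityMeasure P] (ν : Measure (Space d)) [IsProbabilityMeasure ν] (A : ℝ), 1 ≤ A →
      ∀ N : ℝ, 1 ≤ N → ∀ (ι : Type) [Fintype ι] (a : Ω → ι → Space d),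
      Pairwise' P ν (ENNReal.ofReal A) a →
      ∀ (ω : ι → Vec d) (f : ι → Fin d → Space d), (∀ i, ‖ω i‖ ≤ 1) →
      (∀ i j, i ≠ j → σ / N ≤ ‖ω i - ω j‖) → κ * N ^ d ≤ (Fintype.card ι : ℝ) →
      (∀ i, Orthonormal ℝ (Fin.cons (nor (ω i)) (f i) : Fin (d + 1) → Space d)) →
      ∀ η : ℝ, 0 < η → η ≤ 1 →
      P {x | ¬ ∀ p : ℝ≥0∞,
        (1 ≤ p → eLpNorm (bs N ω f (a x)) p volume ≤
          ENNReal.ofReal (C * A / η * (1 + Real.log (Fintype.card ι))) *
            eLpNorm (bs N ω f 0) p volume) ∧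
        (ENNReal.ofReal (1 + 1 / d + ε) ≤ p → eLpNorm (bs N ω f (a x)) p volume ≤
          ENNReal.ofReal (C * A / η) * eLpNorm (bs N ω f 0) p volume)} ≤ ENNReal.ofReal η := by
  have hd2 : (2 : ℝ) ≤ d := by exact_mod_cast hd
  have hd0 : (0 : ℝ) < d := by linarith
  have e0 : ((d : ℝ) + 1) / d = 1 + 1 / d := by field_simp
  have h12 : 1 / (d : ℝ) ≤ 1 / 2 := by
    apply one_div_le_one_div_of_le (by norm_num) hd2
  have h10 : 0 < 1 / (d : ℝ) := by positivity
  set q : ℝ := min (1 + 1 / d + ε) 2 with hq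
  have hq1 : ((d : ℝ) + 1) / d < q := by
    rw [e0, hq, lt_min_iff]
    constructor <;> linarith
  have hq2 : q ≤ 2 := min_le_right _ _
  have hqε : q ≤ 1 + 1 / d + ε := min_le_left _ _
  have hq11 : 1 ≤ q := by
    rw [e0] at hq1
    linarith
  obtain ⟨C₁, hC₁, H₁⟩ := big (d := d) (by omega) hq1 hσ hσ1 hκ
  obtain ⟨C₂, hC₂, H₂⟩ := big (d := d) (q := 2) (by omega) (by rw [e0]; linarith) hσ hσ1 hκ
  refine ⟨108 * C₁ * C₂, by nlinarith [mul_le_mul hC₁ hC₂ (by norm_num) (by linarith)], ?_⟩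
  intro Ω _ P _ ν _ A hA N hN ι _ a h ω f hω hsep hcard hf η hη hη1
  have hN0 : 0 < N := by linarith
  have hc0 : (0 : ℝ) < (Fintype.card ι : ℝ) := lt_of_lt_of_le (by positivity) hcard
  have hne : Nonempty ι := by
    rw [← Fintype.card_pos_iff]
    exact_mod_cast hc0
  set m : ℝ := (Fintype.card ι : ℝ) with hm
  have hm1 : 1 ≤ m := by
    rw [hm]
    exact_mod_cast Nat.succ_le_of_lt (Fintype.card_pos (α := ι))
  have hlog : 0 ≤ Real.log m := Real.log_nonneg hm1
  have hη2 : 0 < η / 2 := by positivity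
  set K₁ : ℝ := 6 * A / (η / 2) with hK₁
  set K₂ : ℝ := 54 * A * (1 + Real.log m) / (η / 2) with hK₂
  have hK₁1 : 1 ≤ K₁ := by
    rw [hK₁, le_div_iff₀ hη2]
    nlinarith
  have hK₂1 : 1 ≤ K₂ := by
    rw [hK₂, le_div_iff₀ hη2]
    nlinarith [mul_nonneg (show (0:ℝ) ≤ A by linarith) hlog]
  have hC12 : 1 ≤ C₁ * C₂ := by nlinarith
  have b1 : C₁ * K₁ ≤ 108 * C₁ * C₂ * A / η := by
    have e : C₁ * K₁ = 12 * C₁ * A / η := by rw [hK₁]; field_simp; ring
    rw [e, div_le_div_iff_of_pos_right hη]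
    have : 0 ≤ C₁ * A := by positivity
    nlinarith
  have b2 : C₂ * K₂ ≤ 108 * C₁ * C₂ * A / η * (1 + Real.log m) := by
    have e : C₂ * K₂ = 108 * C₂ * A / η * (1 + Real.log m) := by rw [hK₂]; field_simp; ring
    rw [e]
    apply mul_le_mul_of_nonneg_right _ (by linarith)
    rw [div_le_div_iff_of_pos_right hη]
    have : 0 ≤ C₂ * A := by positivity
    nlinarith
  have b3 : K₂ ≤ C₂ * K₂ := by nlinarith
  have hsub : {x | ¬ ∀ p : ℝ≥0∞,
        (1 ≤ p → eLpNorm (bs N ω f (a x)) p volume ≤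
          ENNReal.ofReal (108 * C₁ * C₂ * A / η * (1 + Real.log m)) *
            eLpNorm (bs N ω f 0) p volume) ∧
        (ENNReal.ofReal (1 + 1 / d + ε) ≤ p → eLpNorm (bs N ω f (a x)) p volume ≤
          ENNReal.ofReal (108 * C₁ * C₂ * A / η) * eLpNorm (bs N ω f 0) p volume)} ⊆
      {x | ¬ ∫⁻ y, Fb N ω f (a x) y ^ q ≤ ENNReal.ofReal K₁ * ∫⁻ y, Fb N ω f 0 y ^ q} ∪
      {x | ¬ ∀ p : ℝ, 1 ≤ p → p ≤ 2 → ∫⁻ y, Fb N ω f (a x) y ^ p ≤
        ENNReal.ofReal K₂ * ∫⁻ y, Fb N ω f 0 y ^ p} := by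
    intro x hx
    by_contra hcon
    apply hx
    rw [mem_union, not_or] at hcon
    obtain ⟨g1, g2⟩ := hcon
    simp only [mem_ofPred_eq, not_not] at g1 g2
    intro p
    constructor
    · intro hp
      rcases le_total p 2 with hp2 | hp2
      · have hpt : p ≠ ∞ := ne_top_of_le_ne_top (by norm_num) hp2
        set r : ℝ := p.toReal with hr
        have hpr : p = ENNReal.ofReal r := (ENNReal.ofReal_toReal hpt).symm
        have hr1 : 1 ≤ r := by
          rw [hr]
          have := ENNReal.toReal_mono hpt hp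
          simpa using this
        have hr2 : r ≤ 2 := by
          rw [hr]
          have := ENNReal.toReal_mono (by norm_num) hp2
          simpa using this
        have hr0 : 0 < r := by linarith
        have h3 := g2 r hr1 hr2
        rw [← eLp N ω f (a x) hr1, ← eLp N ω f 0 hr1, ← hpr] at h3
        have h4 : eLpNorm (bs N ω f (a x)) p volume ≤
            ENNReal.ofReal K₂ ^ (1 / r) * eLpNorm (bs N ω f 0) p volume := by
          have h5 := ENNReal.rpow_le_rpow h3 (show 0 ≤ 1 / r by positivity)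
          rw [ENNReal.mul_rpow_of_nonneg _ _ (by positivity), ← ENNReal.rpow_mul,
            ← ENNReal.rpow_mul, mul_one_div_cancel hr0.ne', ENNReal.rpow_one,
            ENNReal.rpow_one] at h5
          exact h5
        refine h4.trans (mul_le_mul' ?_ le_rfl)
        calc ENNReal.ofReal K₂ ^ (1 / r) ≤ ENNReal.ofReal K₂ ^ (1 : ℝ) := by
              apply ENNReal.rpow_le_rpow_of_exponent_le
              · rw [← ENNReal.ofReal_one]
                exact ENNReal.ofReal_le_ofReal hK₂1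
              · rw [div_le_one hr0]
                exact hr1
          _ = ENNReal.ofReal K₂ := ENNReal.rpow_one _
          _ ≤ _ := ENNReal.ofReal_le_ofReal (b3.trans b2)
      · have h3 := H₂ N hN ι ω f hω hsep hcard hf K₂ hK₂1 (a x) (g2 2 (by norm_num) le_rfl) p
          (by simpa using hp2)
        exact h3.trans (mul_le_mul' (ENNReal.ofReal_le_ofReal b2) le_rfl)
    · intro hp
      have h3 := H₁ N hN ι ω f hω hsep hcard hf K₁ hK₁1 (a x) g1 p
        ((ENNReal.ofReal_le_ofReal hqε).trans hp)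
      exact h3.trans (mul_le_mul' (ENNReal.ofReal_le_ofReal b1) le_rfl)
  calc _ ≤ _ := measure_mono hsub
    _ ≤ _ := measure_union_le _ _
    _ ≤ ENNReal.ofReal (η / 2) + ENNReal.ofReal (η / 2) :=
        add_le_add (one_exp P ν hA h N ω f hq11 hq2 hη2) (grid P ν hA h N ω f hη2)
    _ = ENNReal.ofReal η := by
        rw [← ENNReal.ofReal_add hη2.le hη2.le]
        congr 1
        ring

end Pool.Agent.Y789.KM
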