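import Mathlib

set_option autoImplicit false

/-!
# Concentration on the symmetric group
-/

namespace Pool.Agent.Y789.KM

open Equiv

lemma sym {K : Type} [Fintype K] [Nonempty K] (g : K → ℝ) {D l : ℝ}
    (hD : ∀ p p', |g p - g p'| ≤ D) :
    ∑ p, Real.exp (l * (g p - (∑ q, g q) / Fintype.card K)) ≤
      Fintype.card K * Real.exp (l ^ 2 * D ^ 2 / 2) := by
  have hK : (0 : ℝ) < Fintype.card K := by exact_mod_cast Fintype.card_pos (α := K)
  set μ : ℝ := (∑ q, g q) / Fintype.card K with hμ
  have h1 : Fintype.card K * Real.exp (-(l * μ)) ≤ ∑ p, Real.exp (-(l * g p)) := by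
    have h2 : ∀ p, Real.exp (-(l * μ)) * (1 - l * (g p - μ)) ≤ Real.exp (-(l * g p)) := by
      intro p
      have h3 := Real.add_one_le_exp (-(l * (g p - μ)))
      calc Real.exp (-(l * μ)) * (1 - l * (g p - μ)) ≤
            Real.exp (-(l * μ)) * Real.exp (-(l * (g p - μ))) :=
            mul_le_mul_of_nonneg_left (by linarith) (Real.exp_pos _).le
        _ = Real.exp (-(l * g p)) := by
            rw [← Real.exp_add]
            congr 1
            ring
    refine le_trans (le_of_eq ?_) (Finset.sum_le_sum fun p _ => h2 p)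
    rw [← Finset.mul_sum, Finset.sum_sub_distrib, ← Finset.mul_sum, Finset.sum_sub_distrib]
    simp only [Finset.sum_const, Finset.card_univ, nsmul_eq_mul, mul_one]
    have h4 : ∑ q, g q = Fintype.card K * μ := by
      rw [hμ]
      field_simp
    rw [h4]
    ring
  have h5 : ∑ p, Real.exp (l * (g p - μ)) =
      (∑ p, Real.exp (l * g p)) * Real.exp (-(l * μ)) := by
    rw [Finset.sum_mul]
    refine Finset.sum_congr rfl fun p _ => ?_
    rw [← Real.exp_add]
    congr 1
    ring
  have h6 : (∑ p, Real.exp (l * g p)) * ∑ p, Real.exp (-(l * g p)) ≤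
      Fintype.card K * (Fintype.card K * Real.exp (l ^ 2 * D ^ 2 / 2)) := by
    have e1 : (∑ p, Real.exp (l * g p)) * ∑ p, Real.exp (-(l * g p)) =
        ∑ p, ∑ p', Real.exp (l * (g p - g p')) := by
      rw [Finset.sum_mul_sum]
      refine Finset.sum_congr rfl fun p _ => Finset.sum_congr rfl fun p' _ => ?_
      rw [← Real.exp_add]
      congr 1
      ring
    have e2 : ∑ p, ∑ p', Real.exp (l * (g p - g p')) =
        ∑ p, ∑ p', Real.exp (-(l * (g p - g p'))) := by
      rw [Finset.sum_comm]
      refine Finset.sum_congr rfl fun p _ => Finset.sum_congr rfl fun p' _ => ?_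
      congr 1
      ring
    have e3 : ∑ p, ∑ p', Real.exp (l * (g p - g p')) =
        ∑ p, ∑ p', Real.cosh (l * (g p - g p')) := by
      have : ∑ p, ∑ p', Real.cosh (l * (g p - g p')) =
          (∑ p, ∑ p', Real.exp (l * (g p - g p')) +
            ∑ p, ∑ p', Real.exp (-(l * (g p - g p')))) / 2 := by
        simp only [Real.cosh_eq]
        rw [← Finset.sum_add_distrib, Finset.sum_div]
        refine Finset.sum_congr rfl fun p _ => ?_
        rw [← Finset.sum_add_distrib, Finset.sum_div]
      rw [this, ← e2]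
      ring
    rw [e1, e3]
    calc ∑ p, ∑ p', Real.cosh (l * (g p - g p')) ≤
          ∑ _p : K, ∑ _p' : K, Real.exp (l ^ 2 * D ^ 2 / 2) := by
          refine Finset.sum_le_sum fun p _ => Finset.sum_le_sum fun p' _ => ?_
          refine (Real.cosh_le_exp_half_sq _).trans (Real.exp_le_exp.2 ?_)
          have h7 := hD p p'
          have h8 : (g p - g p') ^ 2 ≤ D ^ 2 := by
            rw [← sq_abs]
            exact pow_le_pow_left₀ (abs_nonneg _) h7 2
          have h9 := mul_le_mul_of_nonneg_left h8 (sq_nonneg l)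
          rw [mul_pow]
          linarith
      _ = _ := by simp
  rw [h5]
  have h10 : Real.exp (-(l * μ)) ≤ (∑ p, Real.exp (-(l * g p))) / Fintype.card K := by
    rw [le_div_iff₀ hK]
    linarith
  calc (∑ p, Real.exp (l * g p)) * Real.exp (-(l * μ)) ≤
        (∑ p, Real.exp (l * g p)) * ((∑ p, Real.exp (-(l * g p))) / Fintype.card K) :=
        mul_le_mul_of_nonneg_left h10 (Finset.sum_nonneg fun p _ => (Real.exp_pos _).le)
    _ = ((∑ p, Real.exp (l * g p)) * ∑ p, Real.exp (-(l * g p))) / Fintype.card K := by ring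
    _ ≤ (Fintype.card K * (Fintype.card K * Real.exp (l ^ 2 * D ^ 2 / 2))) / Fintype.card K :=
        div_le_div_of_nonneg_right h6 hK.le
    _ = _ := by field_simp

lemma dec_swap {n : ℕ} (p : Fin (n + 1)) (e : Perm (Fin n)) (i j : Fin n) :
    Perm.decomposeFin.symm (p, e * swap i j) =
      Perm.decomposeFin.symm (p, e) * swap i.succ j.succ := by
  ext x
  congr 1
  refine Fin.cases ?_ (fun x => ?_) x
  · rw [Perm.decomposeFin_symm_apply_zero, Perm.mul_apply,
      swap_apply_of_ne_of_ne (Fin.succ_ne_zero i).symm (Fin.succ_ne_zero j).symm,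
      Perm.decomposeFin_symm_apply_zero]
  · rw [Perm.decomposeFin_symm_apply_succ, Perm.mul_apply, Perm.mul_apply,
      ← (Fin.succ_injective n).map_swap, Perm.decomposeFin_symm_apply_succ]

lemma dec_zero {n : ℕ} (p : Fin (n + 1)) (e : Perm (Fin n)) :
    Perm.decomposeFin.symm (p, e) = swap 0 p * Perm.decomposeFin.symm (0, e) := by
  ext x
  congr 1
  refine Fin.cases ?_ (fun x => ?_) x
  · rw [Perm.decomposeFin_symm_apply_zero, Perm.mul_apply, Perm.decomposeFin_symm_apply_zero,
      swap_apply_left]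
  · rw [Perm.decomposeFin_symm_apply_succ, Perm.mul_apply, Perm.decomposeFin_symm_apply_succ,
      swap_self, Equiv.refl_apply]

theorem perm_exp (c l : ℝ) : ∀ (m : ℕ) (G : Perm (Fin m) → ℝ),
    (∀ τ i j, |G (τ * swap i j) - G τ| ≤ c) →
    ∑ τ, Real.exp (l * (G τ - (∑ ρ, G ρ) / Fintype.card (Perm (Fin m)))) ≤
      Fintype.card (Perm (Fin m)) * Real.exp (2 * c ^ 2 * l ^ 2 * m) := by
  intro m
  induction m with
  | zero =>
    intro G _
    have h1 : Fintype.card (Perm (Fin 0)) = 1 := by simp
    rw [h1]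
    simp only [Finset.univ_unique, Finset.sum_singleton, Nat.cast_one, div_one, sub_self,
      mul_zero, Real.exp_zero, Nat.cast_zero, mul_one, le_refl]
  | succ m ih =>
    intro G hG
    set d : Fin (m + 1) × Perm (Fin m) ≃ Perm (Fin (m + 1)) := Perm.decomposeFin.symm with hd
    set M : ℝ := (Fintype.card (Perm (Fin m)) : ℝ) with hM
    have hM0 : 0 < M := by
      rw [hM]
      exact_mod_cast Fintype.card_pos (α := Perm (Fin m))
    have hcard : (Fintype.card (Perm (Fin (m + 1))) : ℝ) = (m + 1) * M := by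
      rw [← Fintype.card_congr d, Fintype.card_prod, Fintype.card_fin]
      push_cast
      rw [hM]
    set g : Fin (m + 1) → ℝ := fun p => (∑ e, G (d (p, e))) / M with hg
    have hsum : ∑ ρ, G ρ = M * ∑ p, g p := by
      rw [← Equiv.sum_comp d, Fintype.sum_prod_type, Finset.mul_sum]
      refine Finset.sum_congr rfl fun p _ => ?_
      rw [hg]
      field_simp
    have hμ : (∑ ρ, G ρ) / Fintype.card (Perm (Fin (m + 1))) =
        (∑ p, g p) / Fintype.card (Fin (m + 1)) := by
      rw [hcard, hsum, Fintype.card_fin]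
      push_cast
      field_simp
    have hdiff : ∀ p p', |g p - g p'| ≤ 2 * c := by
      intro p p'
      have h1 : ∀ p e, |G (d (p, e)) - G (d (0, e))| ≤ c := by
        intro p e
        have h2 : d (p, e) = d (0, e) * swap ((d (0, e))⁻¹ 0) ((d (0, e))⁻¹ p) := by
          rw [hd, dec_zero p e]
          exact swap_mul_eq_mul_swap _ _ _
        rw [h2]
        exact hG _ _ _
      have h3 : g p - g p' = (∑ e, (G (d (p, e)) - G (d (p', e)))) / M := by
        rw [hg, Finset.sum_sub_distrib, sub_div]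
      rw [h3, abs_div, abs_of_pos hM0, div_le_iff₀ hM0]
      calc |∑ e, (G (d (p, e)) - G (d (p', e)))| ≤ ∑ e, |G (d (p, e)) - G (d (p', e))| :=
            Finset.abs_sum_le_sum_abs _ _
        _ ≤ ∑ _e : Perm (Fin m), 2 * c := by
            refine Finset.sum_le_sum fun e _ => ?_
            have h4 := abs_le.1 (h1 p e)
            have h5 := abs_le.1 (h1 p' e)
            rw [abs_le]
            constructor <;> linarith [h4.1, h4.2, h5.1, h5.2]
        _ = 2 * c * M := by
            rw [Finset.sum_const, Finset.card_univ, nsmul_eq_mul, hM]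
            ring
    have hsym := sym g (l := l) hdiff
    rw [← hμ] at hsym
    set μ : ℝ := (∑ ρ, G ρ) / Fintype.card (Perm (Fin (m + 1))) with hμd
    have hfib : ∀ p, ∑ e, Real.exp (l * (G (d (p, e)) - g p)) ≤
        M * Real.exp (2 * c ^ 2 * l ^ 2 * m) := by
      intro p
      refine ih (fun e => G (d (p, e))) ?_
      intro τ i j
      show |G (d (p, τ * swap i j)) - G (d (p, τ))| ≤ c
      rw [hd, dec_swap]
      exact hG _ _ _
    rw [← Equiv.sum_comp d, Fintype.sum_prod_type, hcard]
    calc ∑ p, ∑ e, Real.exp (l * (G (d (p, e)) - μ))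
        = ∑ p, Real.exp (l * (g p - μ)) * ∑ e, Real.exp (l * (G (d (p, e)) - g p)) := by
          refine Finset.sum_congr rfl fun p _ => ?_
          rw [Finset.mul_sum]
          refine Finset.sum_congr rfl fun e _ => ?_
          rw [← Real.exp_add]
          congr 1
          ring
      _ ≤ ∑ p, Real.exp (l * (g p - μ)) * (M * Real.exp (2 * c ^ 2 * l ^ 2 * m)) :=
          Finset.sum_le_sum fun p _ => mul_le_mul_of_nonneg_left (hfib p) (Real.exp_pos _).le
      _ = (∑ p, Real.exp (l * (g p - μ))) * (M * Real.exp (2 * c ^ 2 * l ^ 2 * m)) := by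
          rw [Finset.sum_mul]
      _ ≤ (Fintype.card (Fin (m + 1)) * Real.exp (l ^ 2 * (2 * c) ^ 2 / 2)) *
          (M * Real.exp (2 * c ^ 2 * l ^ 2 * m)) :=
          mul_le_mul_of_nonneg_right hsym (by positivity)
      _ = (m + 1) * M * (Real.exp (l ^ 2 * (2 * c) ^ 2 / 2) *
          Real.exp (2 * c ^ 2 * l ^ 2 * m)) := by
          rw [Fintype.card_fin]
          push_cast
          ring
      _ = _ := by
          rw [← Real.exp_add]
          congr 2
          push_cast
          ring

/-- **Concentration**: a function on the symmetric group of `m` elements which changes by at most `c`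
under transpositions exceeds its mean by `t` with probability at most `exp (-t²/(8 c² m))`. -/
theorem perm_tail {ι : Type} [Fintype ι] [DecidableEq ι] [Nonempty ι] (G : Perm ι → ℝ) {c t : ℝ}
    (hc : 0 < c) (ht : 0 ≤ t) (hG : ∀ τ i j, |G (τ * swap i j) - G τ| ≤ c) :
    (Nat.card {τ // (∑ ρ, G ρ) / Fintype.card (Perm ι) + t ≤ G τ} : ℝ) ≤
      Nat.card (Perm ι) * Real.exp (-(t ^ 2 / (8 * c ^ 2 * Fintype.card ι))) := by
  classical
  set m : ℕ := Fintype.card ι with hm
  have hm0 : (0 : ℝ) < m := by
    rw [hm]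
    exact_mod_cast Fintype.card_pos (α := ι)
  set e : ι ≃ Fin m := Fintype.equivFin ι with he
  set E : Perm (Fin m) ≃ Perm ι := e.symm.permCongr with hE
  have hEs : ∀ τ i j, E (τ * swap i j) = E τ * swap (e.symm i) (e.symm j) := by
    intro τ i j
    ext x
    simp only [hE, Equiv.permCongr_apply, Equiv.symm_symm, Perm.mul_apply]
    congr 2
    rw [e.injective.map_swap]
    simp
  set l : ℝ := t / (4 * c ^ 2 * m) with hl
  have hl0 : 0 ≤ l := by positivity
  have h1 := perm_exp c l m (fun τ => G (E τ)) (by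
    intro τ i j
    show |G (E (τ * swap i j)) - G (E τ)| ≤ c
    rw [hEs]
    exact hG _ _ _)
  rw [Fintype.card_congr E, Equiv.sum_comp E G] at h1
  set μ : ℝ := (∑ ρ, G ρ) / Fintype.card (Perm ι) with hμ
  rw [Equiv.sum_comp E (fun τ => Real.exp (l * (G τ - μ)))] at h1
  have h2 : (Nat.card {τ // μ + t ≤ G τ} : ℝ) * Real.exp (l * t) ≤
      ∑ τ, Real.exp (l * (G τ - μ)) := by
    rw [Nat.card_eq_fintype_card, Fintype.card_subtype]
    calc ((Finset.univ.filter fun τ => μ + t ≤ G τ).card : ℝ) * Real.exp (l * t) =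
          ∑ _τ ∈ Finset.univ.filter (fun τ => μ + t ≤ G τ), Real.exp (l * t) := by
          rw [Finset.sum_const, nsmul_eq_mul]
      _ ≤ ∑ τ ∈ Finset.univ.filter (fun τ => μ + t ≤ G τ), Real.exp (l * (G τ - μ)) := by
          refine Finset.sum_le_sum fun τ hτ => Real.exp_le_exp.2 ?_
          have := (Finset.mem_filter.1 hτ).2
          exact mul_le_mul_of_nonneg_left (by linarith) hl0
      _ ≤ _ := Finset.sum_le_sum_of_subset_of_nonneg (Finset.filter_subset _ _)
          fun _ _ _ => (Real.exp_pos _).le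
  have h3 : (Nat.card {τ // μ + t ≤ G τ} : ℝ) ≤
      Nat.card (Perm ι) * Real.exp (2 * c ^ 2 * l ^ 2 * m) * Real.exp (-(l * t)) := by
    have h4 := h2.trans h1
    rw [Real.exp_neg, ← div_eq_mul_inv, le_div_iff₀ (Real.exp_pos _),
      Nat.card_eq_fintype_card (α := Perm ι)]
    exact h4
  refine h3.trans (le_of_eq ?_)
  rw [mul_assoc, ← Real.exp_add]
  congr 2
  rw [hl]
  field_simp
  ring

end Pool.Agent.Y789.KM
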