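import Pool.Agent.Y789.KM.All
import Pool.Agent.Y789.KM.Fin
import Pool.Agent.Y789.KM.Perm

set_option autoImplicit false

/-!
# The bad permutations are exponentially rare
-/

open MeasureTheory Set
open scoped ENNReal

namespace Pool.Agent.Y789.KM

open Pool.Agent.H810R3.Tub

lemma tangent {q m s s' h : ℝ} (hq1 : 1 ≤ q) (hq2 : q ≤ 2) (hs : 0 ≤ s) (hs' : 0 ≤ s')
    (hm : s' ≤ m) (hh : 0 ≤ h) (h1 : s' ≤ s + h) : s' ^ q ≤ s ^ q + 2 * m ^ (q - 1) * h := by
  have hm0 : 0 ≤ m := hs'.trans hm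
  have hr : 0 ≤ 2 * m ^ (q - 1) * h := by positivity
  rcases le_or_gt s' s with h2 | h2
  · have := Real.rpow_le_rpow hs' h2 (by linarith : 0 ≤ q)
    linarith
  · have hs'0 : 0 < s' := lt_of_le_of_lt hs h2
    have h3 := one_add_mul_self_le_rpow_one_add (s := s / s' - 1)
      (by have : 0 ≤ s / s' := by positivity
          linarith) hq1
    rw [show 1 + (s / s' - 1) = s / s' by ring, Real.div_rpow hs hs',
      le_div_iff₀ (by positivity)] at h3
    have h4 : s' ^ q = s' ^ (q - 1) * s' := by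
      rw [← Real.rpow_add_one hs'0.ne', sub_add_cancel]
    have h5 : (1 + q * (s / s' - 1)) * s' ^ q = s' ^ q - q * s' ^ (q - 1) * (s' - s) := by
      rw [h4]
      field_simp
      ring
    rw [h5] at h3
    have h6 : s' ^ (q - 1) ≤ m ^ (q - 1) := Real.rpow_le_rpow hs' hm (by linarith)
    have h7 : q * s' ^ (q - 1) * (s' - s) ≤ 2 * m ^ (q - 1) * h := by
      have h8 : 0 ≤ s' ^ (q - 1) := by positivity
      have h9 : q * s' ^ (q - 1) ≤ 2 * m ^ (q - 1) := mul_le_mul hq2 h6 h8 (by norm_num)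
      exact mul_le_mul h9 (by linarith) (by linarith) (by positivity)
    linarith

variable {d : ℕ} {ι : Type} [Fintype ι]

lemma Fb_fin {N : ℝ} (hN : 1 ≤ N) {ω : ι → Vec d} {f : ι → Fin d → Space d}
    (hf : ∀ i, Orthonormal ℝ (Fin.cons (nor (ω i)) (f i) : Fin (d + 1) → Space d))
    (a : ι → Space d) {q : ℝ} (hq1 : 1 ≤ q) : ∫⁻ y, Fb N ω f a y ^ q ≠ ∞ := by
  have h1 : ∫⁻ y, Fb N ω f a y ^ q ≤
      (Fintype.card ι : ℝ≥0∞) ^ (q - 1) * ∫⁻ y, Fb N ω f a y := by
    rw [← lintegral_const_mul' _ _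
      (ENNReal.rpow_ne_top_of_nonneg (by linarith) (ENNReal.natCast_ne_top _))]
    refine lintegral_mono fun y => ?_
    have e : Fb N ω f a y ^ q = Fb N ω f a y ^ (q - 1) * Fb N ω f a y := by
      conv_rhs => rw [← ENNReal.rpow_one (Fb N ω f a y), ← ENNReal.rpow_mul, one_mul]
      rw [← ENNReal.rpow_add_of_nonneg _ _ (by linarith) zero_le_one, sub_add_cancel]
    simp only
    rw [e]
    exact mul_le_mul' (ENNReal.rpow_le_rpow (Fb_le N ω f a y) (by linarith)) le_rfl
  refine ne_top_of_le_ne_top ?_ h1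
  rw [Fb_int hN hf]
  exact ENNReal.mul_ne_top (ENNReal.rpow_ne_top_of_nonneg (by linarith)
    (ENNReal.natCast_ne_top _)) ENNReal.ofReal_ne_top

lemma swap_le [DecidableEq ι] {N : ℝ} (hN : 1 ≤ N) {ω : ι → Vec d} {f : ι → Fin d → Space d}
    (hf : ∀ i, Orthonormal ℝ (Fin.cons (nor (ω i)) (f i) : Fin (d + 1) → Space d))
    (b : ι → Space d) {q : ℝ} (hq1 : 1 ≤ q) (hq2 : q ≤ 2) (τ : Equiv.Perm ι) (i j : ι) :
    ∫⁻ y, Fb N ω f (fun k => b ((τ * Equiv.swap i j) k)) y ^ q ≤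
      (∫⁻ y, Fb N ω f (fun k => b (τ k)) y ^ q) +
        ENNReal.ofReal (4 * (Fintype.card ι : ℝ) ^ (q - 1) * N ^ (d + 2)) := by
  have hN0 : 0 < N := by linarith
  set a : ι → Space d := fun k => b (τ k) with ha
  set a' : ι → Space d := fun k => b ((τ * Equiv.swap i j) k) with ha'
  set m : ℝ := (Fintype.card ι : ℝ) with hm
  set u : ι → Space d → ℝ≥0∞ := fun k y =>
    (box N (nor (ω k)) (f k) (a' k)).indicator (fun _ => (1 : ℝ≥0∞)) y with hu
  have hu1 : ∀ k y, u k y ≤ 1 := by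
    intro k y
    exact indicator_le_self' (fun _ _ => zero_le_one) y
  have hum : ∀ k, Measurable (u k) := fun k =>
    measurable_const.indicator (box_closed _ _ _ _).measurableSet
  have hui : ∀ k, ∫⁻ y, u k y = ENNReal.ofReal (N ^ (d + 2)) := by
    intro k
    rw [hu]
    simp only
    rw [lintegral_indicator (box_closed _ _ _ _).measurableSet, setLIntegral_const, one_mul]
    exact vol_box hN (hf k) (a' k)
  have hsum : ∀ y, Fb N ω f a' y ≤ Fb N ω f a y + (u i y + u j y) := by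
    intro y
    have h1 : ∀ k, (box N (nor (ω k)) (f k) (a' k)).indicator (fun _ => (1 : ℝ≥0∞)) y ≤
        (box N (nor (ω k)) (f k) (a k)).indicator (fun _ => (1 : ℝ≥0∞)) y +
          ((if k = i then u i y else 0) + (if k = j then u j y else 0)) := by
      intro k
      by_cases hki : k = i
      · rw [if_pos hki, ← hki]
        exact le_add_left (le_self_add)
      · by_cases hkj : k = j
        · rw [if_pos hkj, if_neg hki, zero_add, ← hkj]
          exact le_add_self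
        · have : a' k = a k := by
            rw [ha', ha]
            simp only [Equiv.Perm.mul_apply]
            rw [Equiv.swap_apply_of_ne_of_ne hki hkj]
          rw [this]
          exact le_self_add
    unfold Fb
    refine (Finset.sum_le_sum fun k _ => h1 k).trans (le_of_eq ?_)
    rw [Finset.sum_add_distrib, Finset.sum_add_distrib, Finset.sum_ite_eq', Finset.sum_ite_eq',
      if_pos (Finset.mem_univ _), if_pos (Finset.mem_univ _)]
  have hpt : ∀ y, Fb N ω f a' y ^ q ≤ Fb N ω f a y ^ q +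
      ENNReal.ofReal (2 * m ^ (q - 1)) * (u i y + u j y) := by
    intro y
    have t1 : Fb N ω f a y ≠ ∞ := ne_top_of_le_ne_top (ENNReal.natCast_ne_top _) (Fb_le N ω f a y)
    have t2 : Fb N ω f a' y ≠ ∞ :=
      ne_top_of_le_ne_top (ENNReal.natCast_ne_top _) (Fb_le N ω f a' y)
    have t3 : u i y + u j y ≠ ∞ :=
      ENNReal.add_ne_top.2 ⟨ne_top_of_le_ne_top ENNReal.one_ne_top (hu1 i y),
        ne_top_of_le_ne_top ENNReal.one_ne_top (hu1 j y)⟩
    have h2 : (Fb N ω f a' y).toReal ≤ (Fb N ω f a y).toReal + (u i y + u j y).toReal := by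
      rw [← ENNReal.toReal_add t1 t3]
      exact ENNReal.toReal_mono (ENNReal.add_ne_top.2 ⟨t1, t3⟩) (hsum y)
    have h3 : (Fb N ω f a' y).toReal ≤ m := by
      have := ENNReal.toReal_mono (ENNReal.natCast_ne_top _) (Fb_le N ω f a' y)
      simpa [hm] using this
    have h4 := tangent hq1 hq2 ENNReal.toReal_nonneg ENNReal.toReal_nonneg h3
      ENNReal.toReal_nonneg h2
    have h5 := ENNReal.ofReal_le_ofReal h4
    have hm0 : 0 ≤ m := Nat.cast_nonneg _
    rw [ENNReal.ofReal_add (by positivity) (by positivity), ENNReal.ofReal_mul (by positivity),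
      ENNReal.ofReal_toReal t3, ← ENNReal.ofReal_rpow_of_nonneg ENNReal.toReal_nonneg (by linarith),
      ← ENNReal.ofReal_rpow_of_nonneg ENNReal.toReal_nonneg (by linarith),
      ENNReal.ofReal_toReal t1, ENNReal.ofReal_toReal t2] at h5
    exact h5
  refine (lintegral_mono hpt).trans (le_of_eq ?_)
  have hm0 : 0 ≤ m := Nat.cast_nonneg _
  rw [lintegral_add_left ((Fb_measurable N ω f a).pow_const _),
    lintegral_const_mul' _ _ ENNReal.ofReal_ne_top, lintegral_add_left (hum i), hui, hui,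
    ← ENNReal.ofReal_add (by positivity) (by positivity), ← ENNReal.ofReal_mul (by positivity)]
  congr 2
  ring

/-- **Exponentially rare.** -/
theorem conc [Nonempty ι] {N : ℝ} (hN : 1 ≤ N) {ω : ι → Vec d}
    {f : ι → Fin d → Space d}
    (hf : ∀ i, Orthonormal ℝ (Fin.cons (nor (ω i)) (f i) : Fin (d + 1) → Space d))
    (b : ι → Space d) {q : ℝ} (hq1 : 1 ≤ q) (hq2 : q ≤ 2) :
    (Nat.card {τ : Equiv.Perm ι // ¬ ∫⁻ y, Fb N ω f (fun k => b (τ k)) y ^ q ≤
      ENNReal.ofReal 13 * ∫⁻ y, Fb N ω f 0 y ^ q} : ℝ) ≤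
      Nat.card (Equiv.Perm ι) * Real.exp (-((Fintype.card ι : ℝ) ^ (3 - 2 * q) / 128)) := by
  classical
  have hN0 : 0 < N := by linarith
  set m : ℝ := (Fintype.card ι : ℝ) with hm
  have hm1 : 1 ≤ m := by
    rw [hm]
    exact_mod_cast Nat.succ_le_of_lt (Fintype.card_pos (α := ι))
  have hm0 : 0 < m := by linarith
  set F : Equiv.Perm ι → ℝ≥0∞ := fun τ => ∫⁻ y, Fb N ω f (fun k => b (τ k)) y ^ q with hF
  have hFt : ∀ τ, F τ ≠ ∞ := fun τ => Fb_fin hN hf _ hq1
  set G : Equiv.Perm ι → ℝ := fun τ => (F τ).toReal with hG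
  set F₀ : ℝ≥0∞ := ∫⁻ y, Fb N ω f 0 y ^ q with hF₀
  have hF₀t : F₀ ≠ ∞ := Fb_fin hN hf _ hq1
  set c : ℝ := 4 * m ^ (q - 1) * N ^ (d + 2) with hc
  have hc0 : 0 < c := by positivity
  set t : ℝ := m * N ^ (d + 2) with ht
  have ht0 : 0 < t := by positivity
  have hstep : ∀ τ i j, G (τ * Equiv.swap i j) ≤ G τ + c := by
    intro τ i j
    have h1 := swap_le hN hf b hq1 hq2 τ i j
    have h2 := ENNReal.toReal_mono (ENNReal.add_ne_top.2 ⟨hFt τ, ENNReal.ofReal_ne_top⟩) h1
    rw [ENNReal.toReal_add (hFt τ) ENNReal.ofReal_ne_top, ENNReal.toReal_ofReal hc0.le] at h2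
    exact h2
  have hdiff : ∀ τ i j, |G (τ * Equiv.swap i j) - G τ| ≤ c := by
    intro τ i j
    rw [abs_le]
    constructor
    · have h1 := hstep (τ * Equiv.swap i j) i j
      rw [mul_assoc, Equiv.swap_mul_self, mul_one] at h1
      linarith
    · have := hstep τ i j
      linarith
  have htail := perm_tail G hc0 ht0.le hdiff
  -- the mean
  have hmean : (∑ ρ, G ρ) / Fintype.card (Equiv.Perm ι) ≤ 12 * F₀.toReal := by
    let _ : MeasurableSpace ι := ⊤
    let _ : MeasurableSpace (Equiv.Perm ι) := ⊤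
    have _ : MeasurableSingletonClass ι := ⟨fun _ => trivial⟩
    have _ : MeasurableSingletonClass (Equiv.Perm ι) := ⟨fun _ => trivial⟩
    have _ : IsProbabilityMeasure ((unif ι).map b) :=
      Measure.isProbabilityMeasure_map measurable_from_top.aemeasurable
    have h2 := (perm_pairwise (ι := ι)).map (b := b) measurable_from_top
    have h3 := mean (unif (Equiv.Perm ι)) ((unif ι).map b) (A := 2) (by norm_num) h2 N ω f hq1 hq2
    have h4 : ∫⁻ x, F x ∂(unif (Equiv.Perm ι)) ≤ ENNReal.ofReal (6 * 2) * F₀ := h3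
    have h5 : ∫⁻ x, F x ∂(unif (Equiv.Perm ι)) =
        (Fintype.card (Equiv.Perm ι) : ℝ≥0∞)⁻¹ * ∑ x, F x := by
      unfold unif
      rw [lintegral_smul_measure, lintegral_count, tsum_fintype, smul_eq_mul]
    rw [h5] at h4
    have h6 := ENNReal.toReal_mono (ENNReal.mul_ne_top ENNReal.ofReal_ne_top hF₀t) h4
    rw [ENNReal.toReal_mul, ENNReal.toReal_mul, ENNReal.toReal_inv, ENNReal.toReal_natCast,
      ENNReal.toReal_sum (fun x _ => hFt x), ENNReal.toReal_ofReal (by norm_num)] at h6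
    calc (∑ ρ, G ρ) / Fintype.card (Equiv.Perm ι) =
          (Fintype.card (Equiv.Perm ι) : ℝ)⁻¹ * ∑ ρ, G ρ := by rw [div_eq_inv_mul]
      _ ≤ 6 * 2 * F₀.toReal := h6
      _ = _ := by ring
  have htF : t ≤ F₀.toReal := by
    have h1 : ∫⁻ y, Fb N ω f 0 y ^ (1 : ℝ) ≤ F₀ := Fb_pow_mono N ω f 0 one_pos hq1
    simp only [ENNReal.rpow_one] at h1
    rw [Fb_int hN hf] at h1
    have h2 := ENNReal.toReal_mono hF₀t h1
    rwa [ENNReal.toReal_ofReal ht0.le] at h2
  have hle : (Nat.card {τ : Equiv.Perm ι // ¬ F τ ≤ ENNReal.ofReal 13 * F₀} : ℝ) ≤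
      Nat.card {τ // (∑ ρ, G ρ) / Fintype.card (Equiv.Perm ι) + t ≤ G τ} := by
    have himp : ∀ τ, ¬ F τ ≤ ENNReal.ofReal 13 * F₀ →
        (∑ ρ, G ρ) / Fintype.card (Equiv.Perm ι) + t ≤ G τ := by
      intro τ hτ
      have h1 := not_le.1 hτ
      have h2 := ENNReal.toReal_mono (hFt τ) h1.le
      rw [ENNReal.toReal_mul, ENNReal.toReal_ofReal (by norm_num)] at h2
      have h3 : 13 * F₀.toReal ≤ G τ := h2
      linarith
    exact_mod_cast Nat.card_le_card_of_injective
      (fun x : {τ : Equiv.Perm ι // ¬ F τ ≤ ENNReal.ofReal 13 * F₀} =>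
        (⟨x.1, himp _ x.2⟩ : {τ // (∑ ρ, G ρ) / Fintype.card (Equiv.Perm ι) + t ≤ G τ}))
      (fun x y hxy => Subtype.ext (by simpa using hxy))
  have hexp : t ^ 2 / (8 * c ^ 2 * m) = m ^ (3 - 2 * q) / 128 := by
    have h1 : m ^ (3 - 2 * q) * (m ^ (q - 1)) ^ 2 = m := by
      rw [pow_two, ← Real.rpow_add hm0, ← Real.rpow_add hm0,
        show 3 - 2 * q + (q - 1 + (q - 1)) = 1 by ring, Real.rpow_one]
    have h2 : 0 < m ^ (q - 1) := by positivity
    rw [div_eq_div_iff (by positivity) (by norm_num), ht, hc]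
    calc (m * N ^ (d + 2)) ^ 2 * 128 = m * 128 * (N ^ (d + 2)) ^ 2 * m := by ring
      _ = (m ^ (3 - 2 * q) * (m ^ (q - 1)) ^ 2) * 128 * (N ^ (d + 2)) ^ 2 * m := by rw [h1]
      _ = _ := by ring
  rw [← hexp]
  exact hle.trans htail

end Pool.Agent.Y789.KM
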