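import Pool.Agent.Y789.KM.App

set_option autoImplicit false

/-!
# One exponent at a time, without loss
-/

open MeasureTheory Set
open scoped ENNReal

namespace Pool.Agent.Y789.KM

open Pool.Agent.H810R3.Tub

lemma conv_p {d : ℕ} {ι : Type} [Fintype ι] {N : ℝ} {ω : ι → Vec d} {f : ι → Fin d → Space d}
    {a : ι → Space d} {r K : ℝ} (hr1 : 1 ≤ r) (hK : 1 ≤ K)
    (h3 : ∫⁻ y, Fb N ω f a y ^ r ≤ ENNReal.ofReal K * ∫⁻ y, Fb N ω f 0 y ^ r) :
    eLpNorm (bs N ω f a) (ENNReal.ofReal r) volume ≤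
      ENNReal.ofReal K * eLpNorm (bs N ω f 0) (ENNReal.ofReal r) volume := by
  have hr0 : 0 < r := by linarith
  rw [← eLp N ω f a hr1, ← eLp N ω f 0 hr1] at h3
  have h5 := ENNReal.rpow_le_rpow h3 (show 0 ≤ 1 / r by positivity)
  rw [ENNReal.mul_rpow_of_nonneg _ _ (by positivity), ← ENNReal.rpow_mul,
    ← ENNReal.rpow_mul, mul_one_div_cancel hr0.ne', ENNReal.rpow_one,
    ENNReal.rpow_one] at h5
  refine h5.trans (mul_le_mul' ?_ le_rfl)
  calc ENNReal.ofReal K ^ (1 / r) ≤ ENNReal.ofReal K ^ (1 : ℝ) := by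
        apply ENNReal.rpow_le_rpow_of_exponent_le
        · rw [← ENNReal.ofReal_one]
          exact ENNReal.ofReal_le_ofReal hK
        · rw [div_le_one hr0]
          exact hr1
    _ = ENNReal.ofReal K := ENNReal.rpow_one _

/-- **One exponent, no loss.** -/
theorem each {d : ℕ} (hd : 2 ≤ d) {σ κ : ℝ} (hσ : 0 < σ) (hσ1 : σ ≤ 1)
    (hκ : 0 < κ) : ∃ C : ℝ, 1 ≤ C ∧ ∀ (Ω : Type) [MeasurableSpace Ω] (P : Measure Ω)
      [IsProbabilityMeasure P] (ν : Measure (Space d)) [IsProbabilityMeasure ν] (A : ℝ), 1 ≤ A →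
      ∀ N : ℝ, 1 ≤ N → ∀ (ι : Type) [Fintype ι] (a : Ω → ι → Space d),
      Pairwise' P ν (ENNReal.ofReal A) a →
      ∀ (ω : ι → Vec d) (f : ι → Fin d → Space d), (∀ i, ‖ω i‖ ≤ 1) →
      (∀ i j, i ≠ j → σ / N ≤ ‖ω i - ω j‖) → κ * N ^ d ≤ (Fintype.card ι : ℝ) →
      (∀ i, Orthonormal ℝ (Fin.cons (nor (ω i)) (f i) : Fin (d + 1) → Space d)) →
      ∀ η : ℝ, 0 < η → η ≤ 1 → ∀ p : ℝ≥0∞, 1 ≤ p →
      P {x | ¬ eLpNorm (bs N ω f (a x)) p volume ≤
          ENNReal.ofReal (C * A / η) * eLpNorm (bs N ω f 0) p volume} ≤ ENNReal.ofReal η := by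
  have hd2 : (2 : ℝ) ≤ d := by exact_mod_cast hd
  have hd0 : (0 : ℝ) < d := by linarith
  have e0 : ((d : ℝ) + 1) / d = 1 + 1 / d := by field_simp
  have h12 : 1 / (d : ℝ) ≤ 1 / 2 := by
    apply one_div_le_one_div_of_le (by norm_num) hd2
  obtain ⟨C, hC, H⟩ := big (d := d) (q := 2) (by omega) (by rw [e0]; linarith) hσ hσ1 hκ
  refine ⟨6 * C, by linarith, ?_⟩
  intro Ω _ P _ ν _ A hA N hN ι _ a h ω f hω hsep hcard hf η hη hη1 p hp
  have hK1 : 1 ≤ 6 * A / η := by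
    rw [le_div_iff₀ hη]
    nlinarith
  have hKC : 6 * A / η ≤ 6 * C * A / η := by
    rw [div_le_div_iff_of_pos_right hη]
    nlinarith
  rcases le_total p 2 with hp2 | hp2
  · have hpt : p ≠ ∞ := ne_top_of_le_ne_top (by norm_num) hp2
    have hpr : p = ENNReal.ofReal p.toReal := (ENNReal.ofReal_toReal hpt).symm
    have hr1 : 1 ≤ p.toReal := by
      have := ENNReal.toReal_mono hpt hp
      simpa using this
    have hr2 : p.toReal ≤ 2 := by
      have := ENNReal.toReal_mono (by norm_num) hp2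
      simpa using this
    refine le_trans (measure_mono ?_) (one_exp P ν hA h N ω f hr1 hr2 hη)
    intro x hx
    simp only [mem_ofPred_eq] at hx ⊢
    intro hcon
    apply hx
    have h3 := conv_p hr1 hK1 hcon
    rw [← hpr] at h3
    exact h3.trans (mul_le_mul' (ENNReal.ofReal_le_ofReal hKC) le_rfl)
  · refine le_trans (measure_mono ?_) (one_exp P ν hA h N ω f (p := 2) (by norm_num) le_rfl hη)
    intro x hx
    simp only [mem_ofPred_eq] at hx ⊢
    intro hcon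
    apply hx
    have h3 := H N hN ι ω f hω hsep hcard hf (6 * A / η) hK1 (a x) hcon p (by simpa using hp2)
    refine h3.trans (mul_le_mul' (ENNReal.ofReal_le_ofReal (le_of_eq ?_)) le_rfl)
    ring

end Pool.Agent.Y789.KM
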