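import Mathlib

set_option autoImplicit false
set_option linter.unusedSectionVars false

/-!
# Sums of the indicators of pairwise independent translates of sets
-/

open MeasureTheory Set
open scoped ENNReal

namespace Pool.Agent.Y789.KM

lemma pow_le_sq {p : ℝ} (hp0 : 0 < p) (hp2 : p ≤ 2) (k : ℕ) :
    ((k : ℝ≥0∞)) ^ p ≤ (k : ℝ≥0∞) ^ (2 : ℝ) := by
  rcases Nat.eq_zero_or_pos k with h | h
  · subst h
    simp [ENNReal.zero_rpow_of_pos hp0]
  · exact ENNReal.rpow_le_rpow_of_exponent_le (by exact_mod_cast h) hp2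

lemma le_pow {p : ℝ} (hp1 : 1 ≤ p) (k : ℕ) : (k : ℝ≥0∞) ≤ (k : ℝ≥0∞) ^ p := by
  rcases Nat.eq_zero_or_pos k with h | h
  · subst h; simp
  · calc (k : ℝ≥0∞) = (k : ℝ≥0∞) ^ (1 : ℝ) := (ENNReal.rpow_one _).symm
      _ ≤ _ := ENNReal.rpow_le_rpow_of_exponent_le (by exact_mod_cast h) hp1

lemma pow_le_add {p : ℝ} (hp0 : 0 < p) (hp2 : p ≤ 2) {m s : ℝ≥0∞} (hm1 : 1 ≤ m) (hm : m ≠ ∞) :
    s ^ p ≤ m ^ p + s ^ (2 : ℝ) * (m ^ p / m ^ (2 : ℝ)) := by
  rcases le_total s m with h | h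
  · exact (ENNReal.rpow_le_rpow h hp0.le).trans le_self_add
  · have hm0 : m ≠ 0 := by
      intro h0
      rw [h0] at hm1
      simp at hm1
    have h1 : 1 ≤ s / m := by
      rw [ENNReal.le_div_iff_mul_le (Or.inl hm0) (Or.inl hm), one_mul]
      exact h
    calc s ^ p = (s / m) ^ p * m ^ p := by
          rw [← ENNReal.mul_rpow_of_nonneg _ _ hp0.le, ENNReal.div_mul_cancel hm0 hm]
      _ ≤ (s / m) ^ (2 : ℝ) * m ^ p :=
          mul_le_mul' (ENNReal.rpow_le_rpow_of_exponent_le h1 hp2) le_rfl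
      _ = s ^ (2 : ℝ) * (m ^ p / m ^ (2 : ℝ)) := by
          rw [ENNReal.div_rpow_of_nonneg _ _ (by norm_num), div_eq_mul_inv, div_eq_mul_inv]
          ring
      _ ≤ _ := le_add_self

lemma mom {Ω : Type*} [MeasurableSpace Ω] (P : Measure Ω) [IsProbabilityMeasure P] {p : ℝ}
    (hp0 : 0 < p) (hp2 : p ≤ 2) {A m : ℝ≥0∞} (hA : 1 ≤ A) (hm : m ≠ ∞) (S : Ω → ℝ≥0∞)
    (hS : ∀ x, ∃ k : ℕ, S x = k)
    (h2 : ∫⁻ x, S x ^ (2 : ℝ) ∂P ≤ A * m + A * m ^ (2 : ℝ)) :
    ∫⁻ x, S x ^ p ∂P ≤ 3 * A * (m + m ^ p) := by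
  have e2 : m ^ (2 : ℝ) = m * m := by
    rw [show (2 : ℝ) = ((2 : ℕ) : ℝ) by norm_num, ENNReal.rpow_natCast, pow_two]
  rcases le_total m 1 with h | h
  · calc ∫⁻ x, S x ^ p ∂P ≤ ∫⁻ x, S x ^ (2 : ℝ) ∂P := by
          apply lintegral_mono
          intro x
          obtain ⟨k, hk⟩ := hS x
          simp only [hk]
          exact pow_le_sq hp0 hp2 k
      _ ≤ A * m + A * m ^ (2 : ℝ) := h2
      _ ≤ A * m + A * m := by
          gcongr
          rw [e2]
          calc m * m ≤ m * 1 := mul_le_mul' le_rfl h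
            _ = m := mul_one m
      _ = 2 * A * m := by ring
      _ ≤ 3 * A * (m + m ^ p) := by
          gcongr
          · norm_num
          · exact le_self_add
  · have hm0 : m ≠ 0 := by
      intro h0
      rw [h0] at h
      simp at h
    have hm2 : m ^ (2 : ℝ) ≠ 0 := by
      rw [e2]
      exact mul_ne_zero hm0 hm0
    have hm2' : m ^ (2 : ℝ) ≠ ∞ := by
      rw [e2]
      exact ENNReal.mul_ne_top hm hm
    have hmp : m ^ p ≠ ∞ := ENNReal.rpow_ne_top_of_nonneg hp0.le hm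
    have hc : m ^ p / m ^ (2 : ℝ) ≠ ∞ := ENNReal.div_ne_top hmp hm2
    calc ∫⁻ x, S x ^ p ∂P ≤ ∫⁻ x, (m ^ p + S x ^ (2 : ℝ) * (m ^ p / m ^ (2 : ℝ))) ∂P :=
          lintegral_mono fun x => pow_le_add hp0 hp2 h hm
      _ = m ^ p + (∫⁻ x, S x ^ (2 : ℝ) ∂P) * (m ^ p / m ^ (2 : ℝ)) := by
          rw [lintegral_add_left measurable_const, lintegral_const, measure_univ, mul_one,
            lintegral_mul_const' _ _ hc]
      _ ≤ m ^ p + (A * m ^ (2 : ℝ) + A * m ^ (2 : ℝ)) * (m ^ p / m ^ (2 : ℝ)) := by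
          gcongr
          refine h2.trans ?_
          gcongr
          rw [e2]
          calc m = m * 1 := (mul_one m).symm
            _ ≤ m * m := mul_le_mul' le_rfl h
      _ = m ^ p + 2 * A * (m ^ p / m ^ (2 : ℝ) * m ^ (2 : ℝ)) := by ring
      _ = m ^ p + 2 * A * m ^ p := by rw [ENNReal.div_mul_cancel hm2 hm2']
      _ ≤ A * m ^ p + 2 * A * m ^ p := by
          gcongr
          calc m ^ p = 1 * m ^ p := (one_mul _).symm
            _ ≤ A * m ^ p := mul_le_mul' hA le_rfl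
      _ = 3 * A * m ^ p := by ring
      _ ≤ 3 * A * (m + m ^ p) := by
          gcongr
          exact le_add_self

/-- **Pairwise nearly independent** random elements `a · i` of `X`, with laws at most `A ν`. -/
structure Pairwise' {Ω X ι : Type*} [MeasurableSpace Ω] [MeasurableSpace X] (P : Measure Ω)
    (ν : Measure X) (A : ℝ≥0∞) (a : Ω → ι → X) : Prop where
  meas : ∀ i, Measurable (fun x => a x i)
  one : ∀ i, ∀ U : Set X, MeasurableSet U → P {x | a x i ∈ U} ≤ A * ν U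
  two : ∀ i j, i ≠ j → ∀ U V : Set X, MeasurableSet U → MeasurableSet V →
    P {x | a x i ∈ U ∧ a x j ∈ V} ≤ A * (ν U * ν V)

lemma second {Ω X ι : Type*} [Fintype ι] [MeasurableSpace Ω] [MeasurableSpace X] {P : Measure Ω}
    {ν : Measure X} {A : ℝ≥0∞} {a : Ω → ι → X} (h : Pairwise' P ν A a) (U : ι → Set X)
    (hU : ∀ i, MeasurableSet (U i)) :
    ∫⁻ x, (∑ i, (U i).indicator (fun _ => (1 : ℝ≥0∞)) (a x i)) ^ (2 : ℝ) ∂P ≤
      A * (∑ i, ν (U i)) + A * (∑ i, ν (U i)) ^ (2 : ℝ) := by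
  classical
  have hW : ∀ i j, MeasurableSet {x | a x i ∈ U i ∧ a x j ∈ U j} := fun i j =>
    (h.meas i (hU i)).inter (h.meas j (hU j))
  have e1 : ∀ x, (∑ i, (U i).indicator (fun _ => (1 : ℝ≥0∞)) (a x i)) ^ (2 : ℝ) =
      ∑ i, ∑ j, {x | a x i ∈ U i ∧ a x j ∈ U j}.indicator (fun _ => (1 : ℝ≥0∞)) x := by
    intro x
    rw [show (2 : ℝ) = ((2 : ℕ) : ℝ) by norm_num, ENNReal.rpow_natCast, pow_two,
      Finset.sum_mul_sum]
    refine Finset.sum_congr rfl fun i _ => Finset.sum_congr rfl fun j _ => ?_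
    by_cases hi : a x i ∈ U i
    · by_cases hj : a x j ∈ U j
      · rw [indicator_of_mem hi, indicator_of_mem hj, indicator_of_mem (by exact ⟨hi, hj⟩), one_mul]
      · rw [indicator_of_notMem hj, mul_zero, indicator_of_notMem (fun hh => hj hh.2)]
    · rw [indicator_of_notMem hi, zero_mul, indicator_of_notMem (fun hh => hi hh.1)]
  have e2 : ∫⁻ x, (∑ i, (U i).indicator (fun _ => (1 : ℝ≥0∞)) (a x i)) ^ (2 : ℝ) ∂P =
      ∑ i, ∑ j, P {x | a x i ∈ U i ∧ a x j ∈ U j} := by
    rw [lintegral_congr e1, lintegral_finsetSum _ (fun i _ => Finset.measurable_fun_sum _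
      fun j _ => measurable_const.indicator (hW i j))]
    refine Finset.sum_congr rfl fun i _ => ?_
    rw [lintegral_finsetSum _ (fun j _ => measurable_const.indicator (hW i j))]
    refine Finset.sum_congr rfl fun j _ => ?_
    rw [lintegral_indicator (hW i j), setLIntegral_const, one_mul]
  rw [e2]
  have e3 : ∀ i j, P {x | a x i ∈ U i ∧ a x j ∈ U j} ≤
      (if i = j then A * ν (U i) else 0) + A * (ν (U i) * ν (U j)) := by
    intro i j
    by_cases hij : i = j
    · subst hij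
      rw [if_pos rfl]
      refine le_trans ?_ le_self_add
      refine le_trans (measure_mono ?_) (h.one i (U i) (hU i))
      intro x hx
      exact hx.1
    · rw [if_neg hij, zero_add]
      exact h.two i j hij (U i) (U j) (hU i) (hU j)
  calc ∑ i, ∑ j, P {x | a x i ∈ U i ∧ a x j ∈ U j}
      ≤ ∑ i, ∑ j, ((if i = j then A * ν (U i) else 0) + A * (ν (U i) * ν (U j))) :=
        Finset.sum_le_sum fun i _ => Finset.sum_le_sum fun j _ => e3 i j
    _ = _ := by
        simp only [Finset.sum_add_distrib, Finset.sum_ite_eq, Finset.mem_univ, if_true]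
        rw [← Finset.mul_sum]
        congr 1
        rw [show (2 : ℝ) = ((2 : ℕ) : ℝ) by norm_num, ENNReal.rpow_natCast, pow_two,
          Finset.sum_mul_sum, Finset.mul_sum]
        refine Finset.sum_congr rfl fun i _ => ?_
        rw [Finset.mul_sum]

lemma jensen {X : Type*} [MeasurableSpace X] (ν : Measure X) [IsProbabilityMeasure ν] {p : ℝ}
    (hp : 1 ≤ p) {f : X → ℝ≥0∞} (hf : Measurable f) :
    (∫⁻ x, f x ∂ν) ^ p ≤ ∫⁻ x, f x ^ p ∂ν := by
  have hp0 : 0 < p := by linarith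
  have h := eLpNorm'_le_eLpNorm'_of_exponent_le (f := f) one_pos hp ν hf.aestronglyMeasurable
  unfold eLpNorm' at h
  simp only [enorm_eq_self, ENNReal.rpow_one, div_one] at h
  calc (∫⁻ x, f x ∂ν) ^ p ≤ ((∫⁻ x, f x ^ p ∂ν) ^ (1 / p)) ^ p := ENNReal.rpow_le_rpow h hp0.le
    _ = _ := by
        rw [← ENNReal.rpow_mul, one_div_mul_cancel hp0.ne', ENNReal.rpow_one]

section main

variable {E : Type*} [AddCommGroup E] [MeasurableSpace E] [MeasurableAdd₂ E] [MeasurableSub₂ E]
  {ι : Type*} [Fintype ι]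

/-- The number of the translates `a i + B i` which contain `y`. -/
noncomputable def T (B : ι → Set E) (a : ι → E) (y : E) : ℝ≥0∞ :=
  ∑ i, (B i).indicator (fun _ => (1 : ℝ≥0∞)) (y - a i)

lemma T_nat (B : ι → Set E) (a : ι → E) (y : E) : ∃ k : ℕ, T B a y = k := by
  classical
  refine ⟨∑ i, if y - a i ∈ B i then 1 else 0, ?_⟩
  unfold T
  rw [Nat.cast_sum]
  refine Finset.sum_congr rfl fun i _ => ?_
  by_cases h : y - a i ∈ B i
  · rw [indicator_of_mem h, if_pos h, Nat.cast_one]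
  · rw [indicator_of_notMem h, if_neg h, Nat.cast_zero]

lemma T_meas {Y : Type*} [MeasurableSpace Y] {B : ι → Set E} (hB : ∀ i, MeasurableSet (B i))
    {a : Y → ι → E} (ha : ∀ i, Measurable (fun x => a x i)) {g : Y → E} (hg : Measurable g) :
    Measurable (fun x => T B (a x) (g x)) := by
  unfold T
  apply Finset.measurable_fun_sum
  intro i _
  exact (measurable_const.indicator (hB i)).comp (hg.sub (ha i))

/-- **The `p`-th moment, `1 ≤ p ≤ 2`, for pairwise nearly independent translates of arbitrary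
measurable sets, is at most `6 A` times the one for the sets themselves.** -/
theorem gen (μ : Measure E) [SFinite μ] [μ.IsAddRightInvariant] {Ω : Type*} [MeasurableSpace Ω]
    (P : Measure Ω) [IsProbabilityMeasure P] (ν : Measure E) [IsProbabilityMeasure ν] {A : ℝ≥0∞}
    (hA : 1 ≤ A) {a : Ω → ι → E} (h : Pairwise' P ν A a) {B : ι → Set E}
    (hB : ∀ i, MeasurableSet (B i)) {p : ℝ} (hp1 : 1 ≤ p) (hp2 : p ≤ 2) :
    ∫⁻ x, ∫⁻ y, T B (a x) y ^ p ∂μ ∂P ≤ 6 * A * ∫⁻ y, T B 0 y ^ p ∂μ := by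
  have hp0 : 0 < p := by linarith
  -- the mean
  have hmean : ∀ y, ∑ i, ν {b | y - b ∈ B i} = ∫⁻ b, T B (fun _ => b) y ∂ν := by
    intro y
    have hm : ∀ i, Measurable (fun b : E => (B i).indicator (fun _ => (1 : ℝ≥0∞)) (y - b)) :=
      fun i => (measurable_const.indicator (hB i)).comp (measurable_const.sub measurable_id)
    unfold T
    rw [lintegral_finsetSum _ (fun i _ => hm i)]
    refine Finset.sum_congr rfl fun i _ => ?_
    have hms : MeasurableSet {b | y - b ∈ B i} := (measurable_const.sub measurable_id) (hB i)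
    have e : (fun b : E => (B i).indicator (fun _ => (1 : ℝ≥0∞)) (y - b)) =
        {b | y - b ∈ B i}.indicator (fun _ => (1 : ℝ≥0∞)) := by
      funext b
      by_cases hb : y - b ∈ B i
      · rw [indicator_of_mem hb, indicator_of_mem (by exact hb)]
      · rw [indicator_of_notMem hb, indicator_of_notMem (by exact hb)]
    rw [e, lintegral_indicator hms, setLIntegral_const, one_mul]
  have hTm : Measurable (fun z : E × E => T B (fun _ => z.2) z.1) :=
    T_meas hB (fun _ => measurable_snd) measurable_fst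
  have hmm : Measurable (fun y => ∫⁻ b, T B (fun _ => b) y ∂ν) := hTm.lintegral_prod_right'
  have hmm2 : Measurable (fun y => ∫⁻ b, T B (fun _ => b) y ^ p ∂ν) :=
    (hTm.pow_const p).lintegral_prod_right'
  have hms : Measurable (fun y => (∫⁻ b, T B (fun _ => b) y ∂ν) + ∫⁻ b, T B (fun _ => b) y ^ p ∂ν) :=
    hmm.add hmm2
  -- the translate by one vector
  have htr : ∀ b : E, ∀ r : ℝ, ∫⁻ y, T B (fun _ => b) y ^ r ∂μ = ∫⁻ y, T B 0 y ^ r ∂μ := by
    intro b r
    have := lintegral_sub_right_eq_self (μ := μ) (fun y => T B 0 y ^ r) b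
    rw [← this]
    refine lintegral_congr fun y => ?_
    unfold T
    simp
  -- the moment at a point
  have hpt : ∀ y, ∫⁻ x, T B (a x) y ^ p ∂P ≤
      3 * A * ((∫⁻ b, T B (fun _ => b) y ∂ν) + ∫⁻ b, T B (fun _ => b) y ^ p ∂ν) := by
    intro y
    have hm : (∑ i, ν {b | y - b ∈ B i}) ≠ ∞ :=
      ENNReal.sum_ne_top.2 fun i _ => measure_ne_top _ _
    have h2 := second h (fun i => {b | y - b ∈ B i})
      (fun i => (measurable_const.sub measurable_id) (hB i))
    have h3 := mom P hp0 hp2 hA hm (fun x => T B (a x) y) (fun x => T_nat B (a x) y) (by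
      refine le_trans (le_of_eq ?_) h2
      refine lintegral_congr fun x => ?_
      unfold T
      congr 1)
    refine h3.trans ?_
    rw [hmean y]
    gcongr
    exact jensen ν hp1 (hTm.comp (measurable_const.prodMk measurable_id))
  calc ∫⁻ x, ∫⁻ y, T B (a x) y ^ p ∂μ ∂P = ∫⁻ y, ∫⁻ x, T B (a x) y ^ p ∂P ∂μ := by
        apply lintegral_lintegral_swap
        apply Measurable.aemeasurable
        exact (T_meas hB (a := fun z : Ω × E => a z.1) (fun i => (h.meas i).comp measurable_fst)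
          measurable_snd).pow_const p
    _ ≤ ∫⁻ y, 3 * A * ((∫⁻ b, T B (fun _ => b) y ∂ν) + ∫⁻ b, T B (fun _ => b) y ^ p ∂ν) ∂μ :=
        lintegral_mono hpt
    _ = 3 * A * ((∫⁻ y, ∫⁻ b, T B (fun _ => b) y ∂ν ∂μ) +
          ∫⁻ y, ∫⁻ b, T B (fun _ => b) y ^ p ∂ν ∂μ) := by
        rw [lintegral_const_mul _ hms, lintegral_add_left hmm]
    _ = 3 * A * ((∫⁻ y, T B 0 y ∂μ) + ∫⁻ y, T B 0 y ^ p ∂μ) := by
        congr 2
        · rw [lintegral_lintegral_swap hTm.aemeasurable]
          have := fun b => htr b 1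
          simp only [ENNReal.rpow_one] at this
          simp only [this, lintegral_const, measure_univ, mul_one]
        · rw [lintegral_lintegral_swap (hTm.pow_const p).aemeasurable]
          simp only [htr, lintegral_const, measure_univ, mul_one]
    _ ≤ 3 * A * ((∫⁻ y, T B 0 y ^ p ∂μ) + ∫⁻ y, T B 0 y ^ p ∂μ) := by
        gcongr with y
        obtain ⟨k, hk⟩ := T_nat B 0 y
        rw [hk]
        exact le_pow hp1 k
    _ = _ := by ring

end main

end Pool.Agent.Y789.KM
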