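import Pool.Agent.Y789.KM.Conc

set_option autoImplicit false

/-!
# Permutations within the classes of a partition
-/

open MeasureTheory Set
open scoped ENNReal

namespace Pool.Agent.Y789.KM

open Pool.Agent.H810R3.Tub

/-- Permutations preserving the classes of `g` are families of permutations of the classes. -/
noncomputable def fibEquiv {ι κ : Type} (g : ι → κ) :
    {τ : Equiv.Perm ι // ∀ i, g (τ i) = g i} ≃ ((c : κ) → Equiv.Perm {i // g i = c}) where
  toFun τ := fun c =>
    { toFun := fun i => ⟨τ.1 i.1, by rw [τ.2, i.2]⟩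
      invFun := fun i => ⟨τ.1.symm i.1, by
        have h := τ.2 (τ.1.symm i.1)
        rw [Equiv.apply_symm_apply] at h
        rw [← h, i.2]⟩
      left_inv := fun i => by simp
      right_inv := fun i => by simp }
  invFun x := ⟨(Equiv.sigmaFiberEquiv g).permCongr (Equiv.sigmaCongrRight x), by
    intro i
    simp only [Equiv.permCongr_apply, Equiv.sigmaCongrRight_apply]
    exact (x _ _).2⟩
  left_inv τ := by
    apply Subtype.ext
    ext i
    rfl
  right_inv x := by
    funext c
    ext i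
    obtain ⟨i, rfl⟩ := i
    rfl

lemma card_pi_bad {κ : Type} [Fintype κ] {X : κ → Type} [∀ c, Finite (X c)] (c : κ)
    (p : X c → Prop) {e : ℝ} (h : (Nat.card {x : X c // p x} : ℝ) ≤ Nat.card (X c) * e) :
    (Nat.card {x : (c : κ) → X c // p (x c)} : ℝ) ≤ Nat.card ((c : κ) → X c) * e := by
  classical
  have e1 : Nat.card {x : (c : κ) → X c // p (x c)} =
      Nat.card {y : X c // p y} * Nat.card ((j : {j // j ≠ c}) → X j) := by
    rw [← Nat.card_prod]
    refine Nat.card_congr ?_
    refine (Equiv.subtypeEquiv (q := fun z : X c × ((j : {j // j ≠ c}) → X j) => p z.1)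
      (Equiv.piSplitAt c X) (fun x => Iff.rfl)).trans ?_
    exact {
      toFun := fun z => (⟨z.1.1, z.2⟩, z.1.2)
      invFun := fun z => ⟨(z.1.1, z.2), z.1.2⟩
      left_inv := fun z => rfl
      right_inv := fun z => rfl }
  have e2 : Nat.card ((c : κ) → X c) = Nat.card (X c) * Nat.card ((j : {j // j ≠ c}) → X j) := by
    rw [← Nat.card_prod]
    exact Nat.card_congr (Equiv.piSplitAt c X)
  rw [e1, e2]
  push_cast
  calc (Nat.card {y : X c // p y} : ℝ) * Nat.card ((j : {j // j ≠ c}) → X j) ≤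
        (Nat.card (X c) * e) * Nat.card ((j : {j // j ≠ c}) → X j) :=
        mul_le_mul_of_nonneg_right h (Nat.cast_nonneg _)
    _ = _ := by ring

variable {d : ℕ} {ι : Type} [Fintype ι]

lemma Fb_fibers {κ : Type} [Fintype κ] [DecidableEq κ] (g : ι → κ) (N : ℝ) (ω : ι → Vec d)
    (f : ι → Fin d → Space d) (a : ι → Space d) (y : Space d) :
    Fb N ω f a y = ∑ c, Fb N (fun i : {i // g i = c} => ω i) (fun i => f i) (fun i => a i) y := by
  unfold Fb
  rw [← Equiv.sum_comp (Equiv.sigmaFiberEquiv g), Fintype.sum_sigma]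
  rfl

/-- Permutations within classes: one exponent. -/
theorem local_conc {κ : Type} [Fintype κ] [Nonempty κ] (g : ι → κ)
    (hg : Function.Surjective g) {N : ℝ} (hN : 1 ≤ N) {ω : ι → Vec d}
    {f : ι → Fin d → Space d}
    (hf : ∀ i, Orthonormal ℝ (Fin.cons (nor (ω i)) (f i) : Fin (d + 1) → Space d))
    (b : ι → Space d) {q : ℝ} (hq1 : 1 ≤ q) (hq2 : q ≤ 2) :
    (Nat.card {τ : Equiv.Perm ι // (∀ i, g (τ i) = g i) ∧
      ¬ ∫⁻ y, Fb N ω f (fun k => b (τ k)) y ^ q ≤
        ENNReal.ofReal (13 * (Fintype.card κ : ℝ) ^ (q - 1)) * ∫⁻ y, Fb N ω f 0 y ^ q} : ℝ) ≤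
      Nat.card {τ : Equiv.Perm ι // ∀ i, g (τ i) = g i} *
        ∑ c, Real.exp (-((Nat.card {i // g i = c} : ℝ) ^ (3 - 2 * q) / 128)) := by
  classical
  have hq0 : 0 < q := by linarith
  set K : ℝ := (Fintype.card κ : ℝ) with hK
  have hK1 : 1 ≤ K := by
    rw [hK]
    exact_mod_cast Nat.succ_le_of_lt (Fintype.card_pos (α := κ))
  -- the classes
  set X : κ → Type := fun c => Equiv.Perm {i // g i = c} with hX
  set S : (c : κ) → X c → Space d → ℝ≥0∞ := fun c x y =>
    Fb N (fun i : {i // g i = c} => ω i) (fun i => f i) (fun i => b (x i)) y with hS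
  set S₀ : κ → Space d → ℝ≥0∞ := fun c y =>
    Fb N (fun i : {i // g i = c} => ω i) (fun i => f i) 0 y with hS₀
  set bad : (c : κ) → X c → Prop := fun c x =>
    ¬ ∫⁻ y, S c x y ^ q ≤ ENNReal.ofReal 13 * ∫⁻ y, S₀ c y ^ q with hbad
  have hclass : ∀ c, (Nat.card {x : X c // bad c x} : ℝ) ≤
      Nat.card (X c) * Real.exp (-((Nat.card {i // g i = c} : ℝ) ^ (3 - 2 * q) / 128)) := by
    intro c
    have _ : Nonempty {i // g i = c} := by
      obtain ⟨i, hi⟩ := hg c
      exact ⟨⟨i, hi⟩⟩
    have h1 := conc hN (ω := fun i : {i // g i = c} => ω i) (f := fun i => f i)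
      (fun i => hf i) (fun i => b i) hq1 hq2
    rw [Nat.card_eq_fintype_card (α := {i // g i = c})]
    exact h1
  -- a good family is good
  have hgood : ∀ x : (c : κ) → X c, (∀ c, ¬ bad c (x c)) →
      ∫⁻ y, Fb N ω f (fun k => b (((fibEquiv g).symm x).1 k)) y ^ q ≤
        ENNReal.ofReal (13 * K ^ (q - 1)) * ∫⁻ y, Fb N ω f 0 y ^ q := by
    intro x hx
    have e1 : ∀ y, Fb N ω f (fun k => b (((fibEquiv g).symm x).1 k)) y = ∑ c, S c (x c) y := by
      intro y
      rw [Fb_fibers g]
      refine Finset.sum_congr rfl fun c _ => ?_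
      rw [hS]
      simp only
      congr 1
      funext i
      have h2 : (fibEquiv g) ((fibEquiv g).symm x) = x := Equiv.apply_symm_apply _ _
      have h3 : ((fibEquiv g) ((fibEquiv g).symm x) c i).1 = (x c i).1 := by rw [h2]
      rw [← h3]
      rfl
    have hm : ∀ c (z : X c), Measurable (fun y => S c z y ^ q) := fun c z =>
      (Fb_measurable _ _ _ _).pow_const _
    have hm0 : ∀ c, Measurable (fun y => S₀ c y ^ q) := fun c =>
      (Fb_measurable _ _ _ _).pow_const _
    have hK' : ENNReal.ofReal K = (Finset.univ : Finset κ).card := by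
      rw [hK, ENNReal.ofReal_natCast, Finset.card_univ]
    calc ∫⁻ y, Fb N ω f (fun k => b (((fibEquiv g).symm x).1 k)) y ^ q =
          ∫⁻ y, (∑ c, S c (x c) y) ^ q := lintegral_congr fun y => by rw [e1]
      _ ≤ ∫⁻ y, ENNReal.ofReal K ^ (q - 1) * ∑ c, S c (x c) y ^ q := by
          refine lintegral_mono fun y => ?_
          have h := ENNReal.rpow_sum_le_const_mul_sum_rpow Finset.univ (fun c => S c (x c) y) hq1
          rw [hK']
          exact h
      _ = ENNReal.ofReal K ^ (q - 1) * ∑ c, ∫⁻ y, S c (x c) y ^ q := by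
          rw [lintegral_const_mul' _ _ (ENNReal.rpow_ne_top_of_nonneg (by linarith)
            ENNReal.ofReal_ne_top), lintegral_finsetSum _ (fun c _ => hm c (x c))]
      _ ≤ ENNReal.ofReal K ^ (q - 1) * ∑ c, ENNReal.ofReal 13 * ∫⁻ y, S₀ c y ^ q := by
          gcongr with c
          exact not_not.1 (hx c)
      _ = ENNReal.ofReal (13 * K ^ (q - 1)) * ∫⁻ y, ∑ c, S₀ c y ^ q := by
          rw [lintegral_finsetSum _ (fun c _ => hm0 c), ← Finset.mul_sum, ← mul_assoc,
            ENNReal.ofReal_rpow_of_nonneg (by linarith) (by linarith),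
            ← ENNReal.ofReal_mul (by positivity), mul_comm (K ^ (q - 1))]
      _ ≤ _ := by
          gcongr with y
          have e2 : Fb N ω f 0 y = ∑ c, S₀ c y := by
            rw [Fb_fibers g]
            rfl
          rw [e2]
          have h3 : ∀ s : Finset κ, ∑ c ∈ s, S₀ c y ^ q ≤ (∑ c ∈ s, S₀ c y) ^ q := by
            intro s
            induction s using Finset.induction_on with
            | empty => simp [ENNReal.zero_rpow_of_pos hq0]
            | insert c s hc ih =>
              rw [Finset.sum_insert hc, Finset.sum_insert hc]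
              exact (add_le_add le_rfl ih).trans (ENNReal.add_rpow_le_rpow_add _ _ hq1)
          exact h3 _
  -- counting
  have hcount : (Nat.card {x : (c : κ) → X c // ∃ c, bad c (x c)} : ℝ) ≤
      Nat.card ((c : κ) → X c) *
        ∑ c, Real.exp (-((Nat.card {i // g i = c} : ℝ) ^ (3 - 2 * q) / 128)) := by
    have h1 : Nat.card {x : (c : κ) → X c // ∃ c, bad c (x c)} ≤
        ∑ c, Nat.card {x : (c : κ) → X c // bad c (x c)} := by
      have e : Nat.card (Σ c, {x : (c : κ) → X c // bad c (x c)}) =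
          ∑ c, Nat.card {x : (c : κ) → X c // bad c (x c)} := Nat.card_sigma
      rw [← e]
      refine Nat.card_le_card_of_injective
        (fun x : {x : (c : κ) → X c // ∃ c, bad c (x c)} =>
          (⟨x.2.choose, ⟨x.1, x.2.choose_spec⟩⟩ : Σ c, {x : (c : κ) → X c // bad c (x c)})) ?_
      intro x x' h
      apply Subtype.ext
      have h2 := congrArg (fun z : Σ c, {x : (c : κ) → X c // bad c (x c)} => z.2.1) h
      exact h2
    have h2 : (Nat.card {x : (c : κ) → X c // ∃ c, bad c (x c)} : ℝ) ≤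
        ∑ c, (Nat.card {x : (c : κ) → X c // bad c (x c)} : ℝ) := by exact_mod_cast h1
    refine h2.trans ?_
    rw [Finset.mul_sum]
    exact Finset.sum_le_sum fun c _ => card_pi_bad c (bad c) (hclass c)
  have e3 : Nat.card ((c : κ) → X c) = Nat.card {τ : Equiv.Perm ι // ∀ i, g (τ i) = g i} :=
    (Nat.card_congr (fibEquiv g)).symm
  rw [e3] at hcount
  refine le_trans ?_ hcount
  have h4 : ∀ τ : {τ : Equiv.Perm ι // (∀ i, g (τ i) = g i) ∧
      ¬ ∫⁻ y, Fb N ω f (fun k => b (τ k)) y ^ q ≤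
        ENNReal.ofReal (13 * K ^ (q - 1)) * ∫⁻ y, Fb N ω f 0 y ^ q},
      ∃ c, bad c (fibEquiv g ⟨τ.1, τ.2.1⟩ c) := by
    intro τ
    by_contra hcon
    push Not at hcon
    apply τ.2.2
    have h5 := hgood (fibEquiv g ⟨τ.1, τ.2.1⟩) hcon
    rw [Equiv.symm_apply_apply] at h5
    exact h5
  exact_mod_cast Nat.card_le_card_of_injective
    (fun τ : {τ : Equiv.Perm ι // (∀ i, g (τ i) = g i) ∧
      ¬ ∫⁻ y, Fb N ω f (fun k => b (τ k)) y ^ q ≤
        ENNReal.ofReal (13 * K ^ (q - 1)) * ∫⁻ y, Fb N ω f 0 y ^ q} =>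
      (⟨fibEquiv g ⟨τ.1, τ.2.1⟩, h4 τ⟩ : {x : (c : κ) → X c // ∃ c, bad c (x c)})) (by
    intro τ τ' h
    have h6 := congrArg Subtype.val h
    have h7 := (fibEquiv g).injective h6
    exact Subtype.ext (by simpa using h7))

end Pool.Agent.Y789.KM
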