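import Pool.Agent.Y789.KM.Local

set_option autoImplicit false

/-!
# The volume of the union, permutations within classes
-/

open MeasureTheory Set
open scoped ENNReal

namespace Pool.Agent.Y789.KM

open Pool.Agent.H810R3.Tub

lemma trunc {l θ s : ℝ} (hl : 0 < l) (hθ : 0 < θ) (hs : 0 < s) :
    s ≤ l + l ^ (-θ) * s ^ (1 + θ) := by
  rcases le_total s l with h | h
  · have : 0 ≤ l ^ (-θ) * s ^ (1 + θ) := by positivity
    linarith
  · have h1 : s ^ (-θ) ≤ l ^ (-θ) := Real.rpow_le_rpow_of_nonpos hl h (by linarith)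
    have h2 : s ^ (-θ) * s ^ (1 + θ) = s := by
      rw [← Real.rpow_add hs, show -θ + (1 + θ) = 1 by ring, Real.rpow_one]
    have h3 : s ^ (-θ) * s ^ (1 + θ) ≤ l ^ (-θ) * s ^ (1 + θ) :=
      mul_le_mul_of_nonneg_right h1 (by positivity)
    linarith

/-- **The union of the boxes has a fixed proportion of the sum of their volumes**, outside an
exponentially small proportion of the permutations within the classes. -/
theorem vol_form {d : ℕ} (hd : 1 ≤ d) {θ σ : ℝ} (hθ : 0 < θ) (hθ1 : d * θ < 1) (hσ : 0 < σ)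
    (hσ1 : σ ≤ 1) : ∃ c : ℝ, 0 < c ∧ ∀ N : ℝ, 1 ≤ N → ∀ (ι K : Type) [Fintype ι] [Nonempty ι]
      [Fintype K] (g : ι → K), Function.Surjective g → ∀ (ω : ι → Vec d)
      (f : ι → Fin d → Space d), (∀ i, ‖ω i‖ ≤ 1) → (∀ i j, i ≠ j → σ / N ≤ ‖ω i - ω j‖) →
      (∀ i, Orthonormal ℝ (Fin.cons (nor (ω i)) (f i) : Fin (d + 1) → Space d)) →
      ∀ b : ι → Space d,
      (Nat.card {τ : Equiv.Perm ι // (∀ i, g (τ i) = g i) ∧
        ¬ ENNReal.ofReal (c / Fintype.card K) * ∑ i, volume (box N (nor (ω i)) (f i) (b (τ i))) ≤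
          volume (⋃ i, box N (nor (ω i)) (f i) (b (τ i)))} : ℝ) ≤
      Nat.card {τ : Equiv.Perm ι // ∀ i, g (τ i) = g i} *
        ∑ c, Real.exp (-((Nat.card {i // g i = c} : ℝ) ^ (1 - 2 * θ) / 128)) := by
  have hd0 : (0 : ℝ) < d := by exact_mod_cast hd
  obtain ⟨E, hE, H⟩ := low (d := d) hd hθ.le hθ1 hσ hσ1
  have hE0 : 0 < E := by linarith
  have hθ2 : θ ≤ 1 := by
    have : (1 : ℝ) ≤ d := by exact_mod_cast hd
    nlinarith
  refine ⟨1 / (2 * (26 * E) ^ (1 / θ)), by positivity, ?_⟩
  intro N hN ι K _ _ _ g hg ω f hω hsep hf b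
  have hN0 : 0 < N := by linarith
  have _ : Nonempty K := ⟨g (Classical.arbitrary ι)⟩
  set k : ℝ := (Fintype.card K : ℝ) with hk
  have hk1 : 1 ≤ k := by
    rw [hk]
    exact_mod_cast Nat.succ_le_of_lt (Fintype.card_pos (α := K))
  have hk0 : 0 < k := by linarith
  set m : ℝ := (Fintype.card ι : ℝ) with hm
  have hm0 : 0 < m := by
    rw [hm]
    exact_mod_cast Fintype.card_pos (α := ι)
  set V : ℝ := m * N ^ (d + 2) with hV
  have hV0 : 0 < V := by positivity
  have h1 := local_conc g hg hN hf b (q := 1 + θ) (by linarith) (by linarith)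
  rw [show 3 - 2 * (1 + θ) = 1 - 2 * θ by ring] at h1
  refine le_trans ?_ h1
  have himp : ∀ τ : Equiv.Perm ι,
      ∫⁻ y, Fb N ω f (fun i => b (τ i)) y ^ (1 + θ) ≤
        ENNReal.ofReal (13 * k ^ (1 + θ - 1)) * ∫⁻ y, Fb N ω f 0 y ^ (1 + θ) →
      ENNReal.ofReal (1 / (2 * (26 * E) ^ (1 / θ)) / k) *
        ∑ i, volume (box N (nor (ω i)) (f i) (b (τ i))) ≤
        volume (⋃ i, box N (nor (ω i)) (f i) (b (τ i))) := by
    intro τ hτ
    set a : ι → Space d := fun i => b (τ i) with ha
    set U : Set (Space d) := ⋃ i, box N (nor (ω i)) (f i) (b (τ i)) with hU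
    have hUm : MeasurableSet U :=
      MeasurableSet.iUnion fun i => (box_closed _ _ _ _).measurableSet
    set l : ℝ := (26 * E) ^ (1 / θ) * k with hl
    have hl0 : 0 < l := by positivity
    have hlθ : l ^ (-θ) * (13 * E * k ^ θ) = 1 / 2 := by
      rw [hl, Real.mul_rpow (by positivity) hk0.le, ← Real.rpow_mul (by positivity),
        show 1 / θ * -θ = -1 by field_simp, Real.rpow_neg_one, Real.rpow_neg hk0.le]
      have : k ^ θ ≠ 0 := (Real.rpow_pos_of_pos hk0 θ).ne'
      field_simp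
      norm_num
    have hτ2 : ∫⁻ y, Fb N ω f a y ^ (1 + θ) ≤ ENNReal.ofReal (13 * E * k ^ θ * V) := by
      refine hτ.trans ((mul_le_mul' le_rfl (H N hN ι ω f hω hsep hf)).trans (le_of_eq ?_))
      rw [Fb_int hN hf, ← ENNReal.ofReal_mul hE0.le, ← ENNReal.ofReal_mul (by positivity)]
      congr 1
      rw [show 1 + θ - 1 = θ by ring, hV]
      ring
    have hpt : ∀ y, Fb N ω f a y ≤ ENNReal.ofReal l * U.indicator (fun _ => (1 : ℝ≥0∞)) y +
        ENNReal.ofReal (l ^ (-θ)) * Fb N ω f a y ^ (1 + θ) := by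
      intro y
      obtain ⟨j, hj⟩ := T_nat (fun i => box N (nor (ω i)) (f i) 0) a y
      rw [← Fb_eq_T] at hj
      rcases Nat.eq_zero_or_pos j with h0 | h0
      · rw [hj, h0]
        simp
      · have hyU : y ∈ U := by
          by_contra hn
          have : Fb N ω f a y = 0 := by
            unfold Fb
            refine Finset.sum_eq_zero fun i _ => ?_
            apply indicator_of_notMem
            intro hy
            exact hn (mem_iUnion.2 ⟨i, hy⟩)
          rw [this] at hj
          have : j = 0 := by exact_mod_cast hj.symm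
          omega
        rw [indicator_of_mem hyU, mul_one, hj]
        have hj0 : (0 : ℝ) < j := by exact_mod_cast h0
        have h2 := ENNReal.ofReal_le_ofReal (trunc hl0 hθ hj0)
        rw [ENNReal.ofReal_add hl0.le (by positivity),
          ENNReal.ofReal_mul (show 0 ≤ l ^ (-θ) by positivity),
          ← ENNReal.ofReal_rpow_of_pos hj0, ENNReal.ofReal_natCast] at h2
        exact h2
    have h2 : ENNReal.ofReal V ≤ ENNReal.ofReal l * volume U + ENNReal.ofReal (V / 2) := by
      calc ENNReal.ofReal V = ∫⁻ y, Fb N ω f a y := by rw [Fb_int hN hf]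
        _ ≤ ∫⁻ y, (ENNReal.ofReal l * U.indicator (fun _ => (1 : ℝ≥0∞)) y +
              ENNReal.ofReal (l ^ (-θ)) * Fb N ω f a y ^ (1 + θ)) := lintegral_mono hpt
        _ = ENNReal.ofReal l * volume U +
              ENNReal.ofReal (l ^ (-θ)) * ∫⁻ y, Fb N ω f a y ^ (1 + θ) := by
            rw [lintegral_add_left ((measurable_const.indicator hUm).const_mul _),
              lintegral_const_mul' _ _ ENNReal.ofReal_ne_top,
              lintegral_const_mul' _ _ ENNReal.ofReal_ne_top, lintegral_indicator hUm,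
              setLIntegral_const, one_mul]
        _ ≤ ENNReal.ofReal l * volume U +
              ENNReal.ofReal (l ^ (-θ)) * ENNReal.ofReal (13 * E * k ^ θ * V) :=
            add_le_add le_rfl (mul_le_mul' le_rfl hτ2)
        _ = _ := by
            rw [← ENNReal.ofReal_mul (by positivity), ← mul_assoc, hlθ]
            congr 2
            ring
    have h3 : ENNReal.ofReal (V / 2) ≤ ENNReal.ofReal l * volume U := by
      have e : ENNReal.ofReal V = ENNReal.ofReal (V / 2) + ENNReal.ofReal (V / 2) := by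
        rw [← ENNReal.ofReal_add (by positivity) (by positivity)]
        congr 1
        ring
      rw [e] at h2
      exact (ENNReal.add_le_add_iff_right ENNReal.ofReal_ne_top).1 h2
    have e4 : ∑ i, volume (box N (nor (ω i)) (f i) (b (τ i))) = ENNReal.ofReal V := by
      rw [Finset.sum_congr rfl (fun i _ => vol_box hN (hf i) (b (τ i))), Finset.sum_const,
        Finset.card_univ, nsmul_eq_mul, hV, ENNReal.ofReal_mul hm0.le, hm, ENNReal.ofReal_natCast]
    rw [e4]
    have h5 : ENNReal.ofReal (1 / l) * ENNReal.ofReal (V / 2) ≤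
        ENNReal.ofReal (1 / l) * (ENNReal.ofReal l * volume U) := mul_le_mul' le_rfl h3
    rw [← mul_assoc, ← ENNReal.ofReal_mul (by positivity), ← ENNReal.ofReal_mul (by positivity),
      one_div_mul_cancel hl0.ne', ENNReal.ofReal_one, one_mul] at h5
    rw [← ENNReal.ofReal_mul (by positivity)]
    refine le_trans (le_of_eq ?_) h5
    congr 1
    rw [hl]
    field_simp
  exact_mod_cast Nat.card_le_card_of_injective
    (fun x : {τ : Equiv.Perm ι // (∀ i, g (τ i) = g i) ∧
        ¬ ENNReal.ofReal (1 / (2 * (26 * E) ^ (1 / θ)) / k) *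
          ∑ i, volume (box N (nor (ω i)) (f i) (b (τ i))) ≤
          volume (⋃ i, box N (nor (ω i)) (f i) (b (τ i)))} =>
      (⟨x.1, x.2.1, fun hh => x.2.2 (himp _ hh)⟩ :
        {τ : Equiv.Perm ι // (∀ i, g (τ i) = g i) ∧
          ¬ ∫⁻ y, Fb N ω f (fun k => b (τ k)) y ^ (1 + θ) ≤
            ENNReal.ofReal (13 * k ^ (1 + θ - 1)) * ∫⁻ y, Fb N ω f 0 y ^ (1 + θ)}))
    (fun x y hxy => Subtype.ext (by simpa using hxy))

end Pool.Agent.Y789.KM
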